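import Mathlib
import Pool.Agent.X93.ST.Step
set_option autoImplicit false

/-! The averaged estimate, uniformly in the trigonometric polynomial. -/

namespace Pool.Agent.X331.SI

open MeasureTheory Set Metric Complex
open scoped ENNReal NNReal RealInnerProductSpace
open Pool.Agent.Results.MP_6cbfb8_an.RidgeDensities (sigma ft)
open Pool.Agent.X93.ST Pool.Agent.X93.ST.Slab

variable {n : ℕ}

theorem average2 (n : ℕ) (hn : 3 ≤ n) (p : ℝ) (hp1 : 2 * (n : ℝ) / (n - 1) < p) (hp2 : p ≤ 4)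
    (e : E n) (he : ‖e‖ = 1)
    (hs : ∀ δ : ℝ≥0∞, δ ≠ 0 → ∃ N : ℕ, ∀ i : Fin (N + 1),
      sigma n {x | kap N (⟪e, (x : E n)⟫ : ℝ) = i} ≤ δ)
    (B : ℝ) (hB0 : 0 ≤ B) (m : ℕ) (hm : 2 ≤ m) (τ : ℝ) (hτ : 0 < τ) :
    ∃ N : ℕ, ∀ (L : ℕ) (c : Fin L → ℂ) (η : Fin L → E n), ∑ j, ‖c j‖ ≤ B →
      ∑ z : Fin (N + 1) → Fin m, ∫⁻ ξ, ‖ft (tr c η e (Fz m N z)) ξ‖ₑ ^ p ≤
        ENNReal.ofReal ((m : ℝ) ^ (N + 1) * τ) := by
  have hn1 : (1 : ℝ) < n := by exact_mod_cast (by omega : 1 < n)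
  have hpc : 2 < 2 * (n : ℝ) / (n - 1) := by
    rw [lt_div_iff₀ (by linarith)]; linarith
  set q : ℝ := (2 * (n : ℝ) / (n - 1) + p) / 2 with hq
  have hq1 : 2 * (n : ℝ) / (n - 1) < q := by linarith
  have hq2 : q < p := by linarith
  have hq0 : 2 < q := by linarith
  obtain ⟨C, hC, hr⟩ := ridge n hn q hq1
  have : Nonempty (Fin m) := ⟨⟨0, by omega⟩⟩
  have hmR : (2 : ℝ) ≤ m := by exact_mod_cast hm
  set D : ℝ := C * (m * B) with hD
  have hD0 : 0 ≤ D := by positivity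
  set S : ℝ := (sigma n).real univ with hS
  have hS0 : 0 ≤ S := measureReal_nonneg
  set κ1 : ℝ := (4 * (m : ℝ) ^ 5) ^ (p / 4) with hκ1
  have hκ10 : 0 ≤ κ1 := by positivity
  -- choice of the size of the slabs
  obtain ⟨δ, hδ, hδ2⟩ : ∃ δ : ℝ, 0 < δ ∧
      κ1 * (B ^ 2 * (δ * S)) ^ ((p - q) / 2) * D ^ q ≤ τ := by
    have hcont : ContinuousAt (fun δ : ℝ => κ1 * (B ^ 2 * (δ * S)) ^ ((p - q) / 2) * D ^ q) 0 := by
      refine (continuousAt_const.mul (ContinuousAt.rpow_const (by fun_prop) ?_)).mul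
        continuousAt_const
      right; linarith
    have h0 : (fun δ : ℝ => κ1 * (B ^ 2 * (δ * S)) ^ ((p - q) / 2) * D ^ q) 0 < τ := by
      simp only [zero_mul, mul_zero]
      rw [Real.zero_rpow (by linarith), mul_zero, zero_mul]
      exact hτ
    have hev := hcont.eventually_lt continuousAt_const h0
    have hev2 : ∀ᶠ δ : ℝ in nhdsWithin 0 (Ioi 0),
        κ1 * (B ^ 2 * (δ * S)) ^ ((p - q) / 2) * D ^ q < τ := hev.filter_mono nhdsWithin_le_nhds
    obtain ⟨δ, h1, h2⟩ := (hev2.and self_mem_nhdsWithin).exists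
    exact ⟨δ, h2, h1.le⟩
  obtain ⟨N, hN⟩ := hs (ENNReal.ofReal δ) (by simpa using hδ)
  refine ⟨N, ?_⟩
  intro L c η hcB
  have hB' : 0 ≤ ∑ j, ‖c j‖ := Finset.sum_nonneg fun _ _ => norm_nonneg _
  have hNr : ∀ i : Fin (N + 1), (sigma n).real {x | kap N (⟪e, (x : E n)⟫ : ℝ) = i} ≤ δ := by
    intro i
    exact ENNReal.toReal_le_of_le_ofReal hδ.le (hN i)
  have hms : ∀ i : Fin (N + 1),
      MeasurableSet {x : sphere (0 : E n) 1 | kap N (⟪e, (x : E n)⟫ : ℝ) = i} := by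
    intro i
    have h2 : Measurable fun x : sphere (0 : E n) 1 => (⟪e, (x : E n)⟫ : ℝ) := by fun_prop
    exact ((kap_meas N).comp h2) (measurableSet_singleton i)
  have hsumS : ∑ i : Fin (N + 1), (sigma n).real {x | kap N (⟪e, (x : E n)⟫ : ℝ) = i} = S := by
    rw [hS, ← measureReal_biUnion_finset]
    · congr 1
      ext x
      simp
    · intro i _ j _ hij
      refine Set.disjoint_left.2 fun x h1 h2 => hij ?_
      rw [mem_ofPred_eq] at h1 h2
      rw [← h1, ← h2]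
    · exact fun i _ => hms i
  set a : Fin (N + 1) → E n → ℂ := fun i ξ => ft (tr c η e (Fi N i)) ξ with ha
  have hA : ∀ ξ, A2 (fun i => a i ξ) ≤ B ^ 2 * (δ * S) := by
    intro ξ
    unfold A2
    calc ∑ i, ‖a i ξ‖ ^ 2 ≤ ∑ i : Fin (N + 1), B ^ 2 *
          (δ * (sigma n).real {x | kap N (⟪e, (x : E n)⟫ : ℝ) = i}) := by
          refine Finset.sum_le_sum fun i _ => ?_
          have h1 := (ft_Fi c η e N i ξ).trans (mul_le_mul_of_nonneg_right hcB measureReal_nonneg)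
          calc ‖a i ξ‖ ^ 2 ≤ (B * (sigma n).real {x | kap N (⟪e, (x : E n)⟫ : ℝ) = i}) ^ 2 :=
                pow_le_pow_left₀ (norm_nonneg _) h1 2
            _ = B ^ 2 * ((sigma n).real {x | kap N (⟪e, (x : E n)⟫ : ℝ) = i} *
                (sigma n).real {x | kap N (⟪e, (x : E n)⟫ : ℝ) = i}) := by ring
            _ ≤ _ := by
                refine mul_le_mul_of_nonneg_left ?_ (by positivity)
                exact mul_le_mul_of_nonneg_right (hNr i) measureReal_nonneg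
      _ = _ := by rw [← Finset.mul_sum, ← Finset.mul_sum, hsumS]
  have hcard : (Fintype.card (Fin m) : ℝ) = m := by simp
  have hFc : ∀ z : Fin (N + 1) → Fin m, Continuous (ft (tr c η e (Fz m N z))) := fun z =>
    ft_cont (int_of_bdd (tr_meas c η e (Fz_meas m N z)) (tr_le c η e (Fz_le m N hm z)))
  have hFm : ∀ (r : ℝ) (z : Fin (N + 1) → Fin m),
      Measurable fun ξ => ‖ft (tr c η e (Fz m N z)) ξ‖ₑ ^ r := fun r z =>
    (hFc z).measurable.enorm.pow_const r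
  -- pointwise
  have hpt : ∀ ξ, ∑ z : Fin (N + 1) → Fin m, ‖ft (tr c η e (Fz m N z)) ξ‖ₑ ^ p ≤
      ENNReal.ofReal (κ1 * (B ^ 2 * (δ * S)) ^ ((p - q) / 2)) *
        ∑ z : Fin (N + 1) → Fin m, ‖ft (tr c η e (Fz m N z)) ξ‖ₑ ^ q := by
    intro ξ
    simp_rw [enorm_rpow _ (show 0 ≤ p by linarith), enorm_rpow _ (show 0 ≤ q by linarith)]
    rw [← ENNReal.ofReal_sum_of_nonneg fun _ _ => by positivity,
      ← ENNReal.ofReal_sum_of_nonneg fun _ _ => by positivity,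
      ← ENNReal.ofReal_mul (by positivity)]
    apply ENNReal.ofReal_le_ofReal
    simp_rw [ft_Fz]
    have h1 := upper (zet m) (zet_sum m (by omega)) m (by linarith) (zet_abs m hm)
      (fun i => a i ξ) p (by linarith) hp2
    have h2 := lower (zet m) (zet_sum m (by omega)) (zet_sq m hm) (fun i => a i ξ) q hq0.le
    have hA0 := A2_nonneg (fun i => a i ξ)
    refine h1.trans ?_
    have h3 : A2 (fun i => a i ξ) ^ (p / 2) ≤ (B ^ 2 * (δ * S)) ^ ((p - q) / 2) *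
        A2 (fun i => a i ξ) ^ (q / 2) := by
      calc A2 (fun i => a i ξ) ^ (p / 2) = A2 (fun i => a i ξ) ^ ((p - q) / 2) *
            A2 (fun i => a i ξ) ^ (q / 2) := by
            rw [← Real.rpow_add_of_nonneg hA0 (by linarith) (by linarith)]
            congr 1; ring
        _ ≤ _ := by
            refine mul_le_mul_of_nonneg_right ?_ (by positivity)
            exact Real.rpow_le_rpow hA0 (hA ξ) (by linarith)
    rw [hcard] at h1 h2 ⊢
    calc (m : ℝ) ^ (N + 1) * (κ1 * A2 (fun i => a i ξ) ^ (p / 2))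
        ≤ (m : ℝ) ^ (N + 1) * (κ1 * ((B ^ 2 * (δ * S)) ^ ((p - q) / 2) *
        A2 (fun i => a i ξ) ^ (q / 2))) := by gcongr
      _ = κ1 * (B ^ 2 * (δ * S)) ^ ((p - q) / 2) *
          ((m : ℝ) ^ (N + 1) * A2 (fun i => a i ξ) ^ (q / 2)) := by ring
      _ ≤ _ := by
          refine mul_le_mul_of_nonneg_left h2 (by positivity)
  have hLq : ∀ z : Fin (N + 1) → Fin m, ∫⁻ ξ, ‖ft (tr c η e (Fz m N z)) ξ‖ₑ ^ q ≤
      ENNReal.ofReal (D ^ q) := by
    intro z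
    have h1 := ((hr L c η e he (Fz m N z) (Fz_meas m N z) m (Fz_le m N hm z)).2).trans
      (ENNReal.ofReal_le_ofReal (show C * (m * ∑ j, ‖c j‖) ≤ D by rw [hD]; gcongr))
    rw [eLpNorm_eq_lintegral_rpow_enorm_toReal (by simp; linarith) (by simp),
      ENNReal.toReal_ofReal (by linarith)] at h1
    have h2 := ENNReal.rpow_le_rpow h1 (show 0 ≤ q by linarith)
    rw [← ENNReal.rpow_mul, one_div, inv_mul_cancel₀ (by linarith), ENNReal.rpow_one,
      ENNReal.ofReal_rpow_of_nonneg hD0 (by linarith)] at h2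
    exact h2
  calc ∑ z : Fin (N + 1) → Fin m, ∫⁻ ξ, ‖ft (tr c η e (Fz m N z)) ξ‖ₑ ^ p
      = ∫⁻ ξ, ∑ z : Fin (N + 1) → Fin m, ‖ft (tr c η e (Fz m N z)) ξ‖ₑ ^ p := by
        rw [lintegral_finsetSum _ fun z _ => hFm p z]
    _ ≤ ∫⁻ ξ, ENNReal.ofReal (κ1 * (B ^ 2 * (δ * S)) ^ ((p - q) / 2)) *
        ∑ z : Fin (N + 1) → Fin m, ‖ft (tr c η e (Fz m N z)) ξ‖ₑ ^ q := lintegral_mono hpt
    _ = ENNReal.ofReal (κ1 * (B ^ 2 * (δ * S)) ^ ((p - q) / 2)) *
        ∑ z : Fin (N + 1) → Fin m, ∫⁻ ξ, ‖ft (tr c η e (Fz m N z)) ξ‖ₑ ^ q := by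
        rw [lintegral_const_mul _ (Finset.measurable_fun_sum _ fun z _ => hFm q z),
          lintegral_finsetSum _ fun z _ => hFm q z]
    _ ≤ ENNReal.ofReal (κ1 * (B ^ 2 * (δ * S)) ^ ((p - q) / 2)) *
        ∑ z : Fin (N + 1) → Fin m, ENNReal.ofReal (D ^ q) := by
        gcongr with z _
        exact hLq z
    _ = ENNReal.ofReal (κ1 * (B ^ 2 * (δ * S)) ^ ((p - q) / 2) * ((m : ℝ) ^ (N + 1) * D ^ q)) := by
        rw [Finset.sum_const, Finset.card_univ, nsmul_eq_mul,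
          ENNReal.ofReal_mul (show 0 ≤ κ1 * (B ^ 2 * (δ * S)) ^ ((p - q) / 2) by positivity),
          ENNReal.ofReal_mul (show 0 ≤ (m : ℝ) ^ (N + 1) by positivity)]
        congr 2
        rw [Fintype.card_pi]
        simp only [Finset.prod_const, Finset.card_univ, Fintype.card_fin]
        rw [← Nat.cast_pow, ENNReal.ofReal_natCast]
    _ ≤ _ := by
        apply ENNReal.ofReal_le_ofReal
        calc _ = (m : ℝ) ^ (N + 1) * (κ1 * (B ^ 2 * (δ * S)) ^ ((p - q) / 2) * D ^ q) := by ring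
          _ ≤ _ := by gcongr


end Pool.Agent.X331.SI
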