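import Mathlib
import Pool.Agent.X93.ST.Step
set_option autoImplicit false

/-! Elementary facts: distance to the integers, the coefficients of the random shift, real parts of
trigonometric polynomials. -/

namespace Pool.Agent.X331.SI

open MeasureTheory Set Metric Complex
open scoped ENNReal NNReal RealInnerProductSpace ComplexConjugate
open Pool.Agent.Results.MP_6cbfb8_an.RidgeDensities (sigma ft)
open Pool.Agent.X93.ST Pool.Agent.X93.ST.Slab

variable {n : ℕ}

/-- distance to the integers -/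
noncomputable def dz (t : ℝ) : ℝ := |t - round t|

theorem dz_nonneg (t : ℝ) : 0 ≤ dz t := abs_nonneg _

theorem dz_le (t : ℝ) : dz t ≤ 1 / 2 := abs_sub_round t

theorem dz_lip (s t : ℝ) : dz (s + t) ≤ dz s + |t| := by
  unfold dz
  calc |s + t - round (s + t)| ≤ |s + t - round s| := round_le _ _
    _ ≤ |s - round s| + |t| := by
      rw [show s + t - round s = (s - round s) + t by ring]
      exact abs_add_le _ _

theorem dz_add_int (t : ℝ) (k : ℤ) : dz (t + k) = dz t := by
  unfold dz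
  rw [round_add_intCast]
  congr 1
  push_cast; ring

theorem dz_zero_iff (t : ℝ) : dz t = 0 ↔ ∃ k : ℤ, t = k := by
  unfold dz
  rw [abs_eq_zero, sub_eq_zero]
  constructor
  · intro h; exact ⟨round t, h⟩
  · rintro ⟨k, rfl⟩; simp

theorem dz_eq (t : ℝ) : dz t = min (Int.fract t) (1 - Int.fract t) := abs_sub_round_eq_min t

theorem dz_cont : Continuous dz := by
  rw [Metric.continuous_iff]
  intro b ε hε
  refine ⟨ε, hε, fun a hab => ?_⟩
  rw [Real.dist_eq] at hab ⊢
  rw [abs_lt]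
  have h1 := dz_lip b (a - b)
  have h2 := dz_lip a (b - a)
  rw [show b + (a - b) = a by ring] at h1
  rw [show a + (b - a) = b by ring, abs_sub_comm] at h2
  constructor <;> linarith

theorem dz_meas : Measurable dz := dz_cont.measurable

/-- the coefficients -/
noncomputable def cw (m : ℕ) (l : ℝ) (w : Fin m) : ℝ :=
  if (w : ℕ) = 0 then m * l - ⌊m * l⌋₊ else if (w : ℕ) ≤ ⌊m * l⌋₊ then 1 else 0

theorem cw_mem (m : ℕ) (l : ℝ) (hl : 0 ≤ l) (w : Fin m) : 0 ≤ cw m l w ∧ cw m l w ≤ 1 := by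
  have h0 : (0 : ℝ) ≤ m * l := by positivity
  unfold cw
  split_ifs
  · have h1 := Nat.floor_le h0
    have h2 := Nat.lt_floor_add_one ((m : ℝ) * l)
    constructor <;> linarith
  · norm_num
  · norm_num

theorem cw_sum (m : ℕ) (hm : 1 ≤ m) (l : ℝ) (hl : 0 ≤ l) (hl1 : l < 1) :
    ∑ w, cw m l w = m * l := by
  obtain ⟨k, rfl⟩ : ∃ k, m = k + 1 := ⟨m - 1, by omega⟩
  set K : ℕ := ⌊((k + 1 : ℕ) : ℝ) * l⌋₊ with hK
  have h0 : (0 : ℝ) ≤ ((k + 1 : ℕ) : ℝ) * l := by positivity
  have hKk : K ≤ k := by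
    have : K < k + 1 := by
      rw [hK, Nat.floor_lt h0]
      have h1 : (0 : ℝ) < ((k + 1 : ℕ) : ℝ) := by positivity
      nlinarith
    omega
  rw [Fin.sum_univ_succ]
  have h1 : cw (k + 1) l 0 = ((k + 1 : ℕ) : ℝ) * l - K := by
    unfold cw; simp [hK]
  have h2 : ∀ i : Fin k, cw (k + 1) l i.succ = if (i : ℕ) < K then (1 : ℝ) else 0 := by
    intro i
    unfold cw
    rw [if_neg (by simp)]
    simp only [Fin.val_succ, Nat.succ_le_iff, ← hK]
  rw [h1, Finset.sum_congr rfl fun i _ => h2 i]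
  have h3 : ∑ i : Fin k, (if (i : ℕ) < K then (1 : ℝ) else 0) = K := by
    rw [Fin.sum_univ_eq_sum_range (fun i => if i < K then (1 : ℝ) else 0) k, ← Finset.sum_filter]
    rw [show (Finset.range k).filter (fun i => i < K) = Finset.range K by
      ext i; simp only [Finset.mem_filter, Finset.mem_range]; omega]
    simp
  rw [h3]; ring

theorem cw_abs (c l : ℝ) (hc : 0 ≤ c) (hc1 : c ≤ 1) (hl : 0 ≤ l) (hl1 : l ≤ 1) :
    |c - l| ≤ c * (1 - l) + (1 - c) * l := by
  rw [abs_le]
  constructor <;> nlinarith [mul_nonneg hc (sub_nonneg.2 hl1), mul_nonneg (sub_nonneg.2 hc1) hl]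

theorem cw_dev (m : ℕ) (hm : 1 ≤ m) (t : ℝ) :
    ∑ w, |cw m (Int.fract t) w - Int.fract t| ≤ m * (2 * dz t) := by
  set l := Int.fract t with hl
  have hl0 : 0 ≤ l := Int.fract_nonneg t
  have hl1 : l < 1 := Int.fract_lt_one t
  have h1 : ∑ w, |cw m l w - l| ≤ ∑ w, (cw m l w * (1 - l) + (1 - cw m l w) * l) :=
    Finset.sum_le_sum fun w _ => cw_abs _ _ (cw_mem m l hl0 w).1 (cw_mem m l hl0 w).2 hl0 hl1.le
  have h2 : ∑ w : Fin m, (cw m l w * (1 - l) + (1 - cw m l w) * l) = m * (2 * (l * (1 - l))) := by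
    rw [Finset.sum_add_distrib, ← Finset.sum_mul, ← Finset.sum_mul, Finset.sum_sub_distrib,
      cw_sum m hm l hl0 hl1]
    simp
    ring
  rw [h2] at h1
  refine h1.trans ?_
  have h3 : l * (1 - l) ≤ dz t := by
    rw [dz_eq, ← hl]
    apply le_min
    · nlinarith
    · nlinarith
  have : (0 : ℝ) ≤ m := by positivity
  gcongr

/-- after the ideal shift we are at an integer, unless `w = 0` -/
theorem cw_hit (m : ℕ) (t : ℝ) (w : Fin m) :
    dz (t + (cw m (Int.fract t) w - Int.fract t)) ≤ if (w : ℕ) = 0 then 1 else 0 := by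
  have h1 : t + (cw m (Int.fract t) w - Int.fract t) = cw m (Int.fract t) w + ⌊t⌋ := by
    have := Int.floor_add_fract t
    linarith
  rw [h1, dz_add_int]
  split_ifs with h
  · exact (dz_le _).trans (by norm_num)
  · unfold cw
    rw [if_neg h]
    split_ifs <;> simp [dz]

theorem cw_meas (m : ℕ) (w : Fin m) : Measurable fun l => cw m l w := by
  unfold cw
  have h1 : Measurable fun l : ℝ => ⌊(m : ℝ) * l⌋₊ := Nat.measurable_floor.comp (by fun_prop)
  have h2 : Measurable fun l : ℝ => ((⌊(m : ℝ) * l⌋₊ : ℕ) : ℝ) :=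
    (measurable_from_top (f := fun k : ℕ => (k : ℝ))).comp h1
  split_ifs with h
  · exact (by fun_prop : Measurable fun l : ℝ => (m : ℝ) * l).sub h2
  · exact Measurable.ite (measurableSet_le measurable_const h1) measurable_const measurable_const

/-- real part of a trigonometric polynomial -/
theorem re_trig {L : ℕ} (c : Fin L → ℂ) (η : Fin L → E n) :
    ∃ (L' : ℕ) (c' : Fin L' → ℂ) (η' : Fin L' → E n),
      ∀ x : E n, trig c' η' x = ((trig c η x).re : ℂ) := by
  refine ⟨L + L, Fin.append (fun j => c j / 2) (fun j => conj (c j) / 2),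
    Fin.append η (fun j => -η j), fun x => ?_⟩
  unfold trig
  rw [Fin.sum_univ_add]
  simp only [Fin.append_left, Fin.append_right]
  have h1 : ∀ j : Fin L, conj (c j) / 2 * Complex.exp ((⟪-η j, x⟫ : ℝ) * I) =
      conj (c j * Complex.exp ((⟪η j, x⟫ : ℝ) * I)) / 2 := by
    intro j
    rw [map_mul, ← Complex.exp_conj, map_mul, Complex.conj_ofReal, Complex.conj_I,
      inner_neg_left]
    rw [show (((-⟪η j, x⟫ : ℝ)) : ℂ) * I = (⟪η j, x⟫ : ℝ) * -I by push_cast; ring]
    ring
  rw [Finset.sum_congr rfl fun j _ => h1 j, ← Finset.sum_div, ← map_sum]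
  have h2 : ∀ j : Fin L, c j / 2 * Complex.exp ((⟪η j, x⟫ : ℝ) * I) =
      (c j * Complex.exp ((⟪η j, x⟫ : ℝ) * I)) / 2 := fun j => by ring
  rw [Finset.sum_congr rfl fun j _ => h2 j, ← Finset.sum_div, ← add_div, Complex.add_conj]
  push_cast
  ring

end Pool.Agent.X331.SI
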