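import Mathlib
import Pool.Agent.X331.SI.Avg
import Pool.Agent.X331.SI.Coef
set_option autoImplicit false

/-! One step of the construction. -/

namespace Pool.Agent.X331.SI

open MeasureTheory Set Metric Complex
open scoped ENNReal NNReal RealInnerProductSpace
open Pool.Agent.Results.MP_6cbfb8_an.RidgeDensities (sigma ft)
open Pool.Agent.X93.ST Pool.Agent.X93.ST.Slab

variable {n : ℕ}

/-- sum over all choices of a function of one coordinate -/
theorem sum_one {Ω : Type} [Fintype Ω] [Nonempty Ω] {N : ℕ} (f : Ω → ℝ) (i : Fin N) :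
    ∑ z : Fin N → Ω, f (z i) = (Fintype.card Ω : ℝ) ^ N * ((∑ w, f w) / Fintype.card Ω) := by
  have hc : (0 : ℝ) < Fintype.card Ω := by exact_mod_cast Fintype.card_pos
  have h := sum_coord (fun w => f w - (∑ w, f w) / Fintype.card Ω) (by
    rw [Finset.sum_sub_distrib, Finset.sum_const, Finset.card_univ, nsmul_eq_mul]
    field_simp
    ring) i
  rw [Finset.sum_sub_distrib, Finset.sum_const, Finset.card_univ, nsmul_eq_mul,
    Fintype.card_pi, Finset.prod_const, Finset.card_univ, Fintype.card_fin] at h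
  push_cast at h
  linarith

/-- the increment -/
noncomputable def dd (m N : ℕ) (e : E n) (P : Fin m → E n → ℝ) (z : Fin (N + 1) → Fin m)
    (x : sphere (0 : E n) 1) : ℝ :=
  P (z (kap N ⟪e, (x : E n)⟫)) x - (∑ w, P w x) / m

theorem dd_meas (m N : ℕ) (e : E n) (P : Fin m → E n → ℝ) (hP : ∀ w, Continuous (P w))
    (z : Fin (N + 1) → Fin m) : Measurable (dd m N e P z) := by
  unfold dd
  have h1 : Measurable fun x : sphere (0 : E n) 1 => kap N ⟪e, (x : E n)⟫ :=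
    (kap_meas N).comp (by fun_prop)
  have h2 : Measurable fun x : sphere (0 : E n) 1 => P (z (kap N ⟪e, (x : E n)⟫)) (x : E n) := by
    have h3 : (fun x : sphere (0 : E n) 1 => P (z (kap N ⟪e, (x : E n)⟫)) (x : E n)) =
        fun x : sphere (0 : E n) 1 => ∑ i : Fin (N + 1), if kap N ⟪e, (x : E n)⟫ = i then P (z i) (x : E n) else 0 := by
      funext x
      rw [Finset.sum_ite_eq]
      simp
    rw [h3]
    refine Finset.measurable_fun_sum _ fun i _ => Measurable.ite (h1 (measurableSet_singleton i))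
      ?_ measurable_const
    exact ((hP _).comp continuous_subtype_val).measurable
  refine h2.sub ?_
  refine Measurable.div_const (Finset.measurable_fun_sum _ fun w _ => ?_) _
  exact ((hP _).comp continuous_subtype_val).measurable

theorem dd_le (m N : ℕ) (hm : 1 ≤ m) (e : E n) (P : Fin m → E n → ℝ)
    (hP : ∀ w (x : sphere (0 : E n) 1), |P w x| ≤ 2)
    (z : Fin (N + 1) → Fin m) (x : sphere (0 : E n) 1) : |dd m N e P z x| ≤ 4 := by
  unfold dd
  have hm0 : (0 : ℝ) < m := by exact_mod_cast hm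
  have h1 : |(∑ w, P w x) / m| ≤ 2 := by
    rw [abs_div, abs_of_pos hm0, div_le_iff₀ hm0]
    calc |∑ w, P w x| ≤ ∑ w, |P w x| := Finset.abs_sum_le_sum_abs _ _
      _ ≤ ∑ _w : Fin m, (2 : ℝ) := Finset.sum_le_sum fun w _ => hP w x
      _ = 2 * m := by simp; ring
  calc _ ≤ |P (z (kap N ⟪e, (x : E n)⟫)) x| + |(∑ w, P w x) / m| := abs_sub _ _
    _ ≤ 2 + 2 := add_le_add (hP _ _) h1
    _ = 4 := by norm_num

theorem zet_swap (m : ℕ) (z0 w v : Fin m) (h0 : (z0 : ℕ) = 0) :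
    zet m (Equiv.swap z0 w v) = if v = w then -((m : ℝ) - 1) else 1 := by
  unfold zet
  have h1 : ((Equiv.swap z0 w v : Fin m) : ℕ) = 0 ↔ v = w := by
    constructor
    · intro h
      have h2 : Equiv.swap z0 w v = z0 := Fin.ext (by rw [h, h0])
      have h3 : v = Equiv.swap z0 w z0 := Equiv.swap_apply_eq_iff.1 h2
      rw [h3]; simp
    · rintro rfl
      simp [h0]
  by_cases h : v = w
  · rw [if_pos (h1.2 h), if_pos h]
  · rw [if_neg (fun h' => h (h1.1 h')), if_neg h]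

theorem dd_sum (m N : ℕ) (hm : 1 ≤ m) (e : E n) (P : Fin m → E n → ℝ) (L : Fin m → ℕ)
    (c : ∀ w, Fin (L w) → ℂ) (η : ∀ w, Fin (L w) → E n)
    (hP : ∀ w x, trig (c w) (η w) x = (P w x : ℂ)) (z0 : Fin m) (h0 : (z0 : ℕ) = 0)
    (z : Fin (N + 1) → Fin m) (x : sphere (0 : E n) 1) :
    (dd m N e P z x : ℂ) = ∑ w, (-(1 / (m : ℂ))) *
      tr (c w) (η w) e (Fz m N (fun i => Equiv.swap z0 w (z i))) x := by
  have hm0 : (m : ℂ) ≠ 0 := by exact_mod_cast (by omega : m ≠ 0)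
  unfold tr Fz
  simp_rw [hP, zet_swap m z0 _ _ h0]
  set v := z (kap N ⟪e, (x : E n)⟫) with hv
  have h1 : ∀ w : Fin m, (-(1 / (m : ℂ))) * ((P w x : ℂ) *
      (((if v = w then -((m : ℝ) - 1) else 1 : ℝ)) : ℂ)) =
      (if v = w then (P w x : ℂ) else 0) - (P w x : ℂ) / m := by
    intro w
    split_ifs
    · push_cast
      field_simp
    · push_cast
      field_simp
      ring
  rw [Finset.sum_congr rfl fun w _ => h1 w, Finset.sum_sub_distrib, Finset.sum_ite_eq,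
    if_pos (Finset.mem_univ _), ← Finset.sum_div]
  unfold dd
  rw [← hv]
  push_cast
  ring

theorem ft_dd (m N : ℕ) (hm : 2 ≤ m) (e : E n) (P : Fin m → E n → ℝ) (L : Fin m → ℕ)
    (c : ∀ w, Fin (L w) → ℂ) (η : ∀ w, Fin (L w) → E n)
    (hP : ∀ w x, trig (c w) (η w) x = (P w x : ℂ)) (z0 : Fin m) (h0 : (z0 : ℕ) = 0)
    (z : Fin (N + 1) → Fin m) (ξ : E n) :
    ft (fun x => (dd m N e P z x : ℂ)) ξ = ∑ w, (-(1 / (m : ℂ))) *
      ft (tr (c w) (η w) e (Fz m N (fun i => Equiv.swap z0 w (z i)))) ξ := by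
  rw [show (fun x => (dd m N e P z x : ℂ)) = fun x => ∑ w, (-(1 / (m : ℂ))) *
      tr (c w) (η w) e (Fz m N (fun i => Equiv.swap z0 w (z i))) x from
    funext fun x => dd_sum m N (by omega) e P L c η hP z0 h0 z x]
  rw [ft_sum]
  · refine Finset.sum_congr rfl fun w _ => ?_
    rw [ft_smul]
  · intro w _
    refine Integrable.const_mul ?_ _
    exact int_of_bdd (tr_meas _ _ e (Fz_meas m N _)) (tr_le _ _ e (Fz_le m N hm _))

/-- the averaged `L^p` bound for the increments -/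
theorem avg_dd (m N : ℕ) (hm : 2 ≤ m) (p : ℝ) (hp : 1 ≤ p) (e : E n) (P : Fin m → E n → ℝ)
    (L : Fin m → ℕ)
    (c : ∀ w, Fin (L w) → ℂ) (η : ∀ w, Fin (L w) → E n)
    (hP : ∀ w x, trig (c w) (η w) x = (P w x : ℂ)) (A : ℝ≥0∞)
    (hA : ∀ w, ∑ z : Fin (N + 1) → Fin m, ∫⁻ ξ, ‖ft (tr (c w) (η w) e (Fz m N z)) ξ‖ₑ ^ p ≤ A) :
    ∑ z : Fin (N + 1) → Fin m, ∫⁻ ξ, ‖ft (fun x => (dd m N e P z x : ℂ)) ξ‖ₑ ^ p ≤ A := by
  set z0 : Fin m := ⟨0, by omega⟩ with hz0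
  have h0 : (z0 : ℕ) = 0 := rfl
  have hm0 : (m : ℝ≥0∞) ≠ 0 := by
    simp; omega
  have hmt : (m : ℝ≥0∞) ≠ ⊤ := ENNReal.natCast_ne_top m
  have hFc : ∀ w (z : Fin (N + 1) → Fin m), Continuous (ft (tr (c w) (η w) e (Fz m N z))) :=
    fun w z => ft_cont (int_of_bdd (tr_meas _ _ e (Fz_meas m N z)) (tr_le _ _ e (Fz_le m N hm z)))
  have h1 : ∀ (z : Fin (N + 1) → Fin m) (ξ : E n),
      ‖ft (fun x => (dd m N e P z x : ℂ)) ξ‖ₑ ^ p ≤ ∑ w, (m : ℝ≥0∞)⁻¹ *
        ‖ft (tr (c w) (η w) e (Fz m N (fun i => Equiv.swap z0 w (z i)))) ξ‖ₑ ^ p := by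
    intro z ξ
    rw [ft_dd m N hm e P L c η hP z0 h0]
    have h2 : ‖∑ w, (-(1 / (m : ℂ))) *
        ft (tr (c w) (η w) e (Fz m N (fun i => Equiv.swap z0 w (z i)))) ξ‖ₑ ≤
        ∑ w, (m : ℝ≥0∞)⁻¹ *
        ‖ft (tr (c w) (η w) e (Fz m N (fun i => Equiv.swap z0 w (z i)))) ξ‖ₑ := by
      refine (enorm_sum_le _ _).trans (Finset.sum_le_sum fun w _ => ?_)
      have hmn : ‖(m : ℂ)‖ₑ = (m : ℝ≥0∞) := by
        rw [← ofReal_norm, Complex.norm_natCast, ENNReal.ofReal_natCast]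
      rw [enorm_mul, enorm_neg, one_div, enorm_inv (by exact_mod_cast (by omega : m ≠ 0)), hmn]
    refine (ENNReal.rpow_le_rpow h2 (by linarith)).trans ?_
    exact ENNReal.rpow_arith_mean_le_arith_mean_rpow Finset.univ (fun _ => (m : ℝ≥0∞)⁻¹) _
      (by
        rw [Finset.sum_const, Finset.card_univ, Fintype.card_fin, nsmul_eq_mul]
        exact ENNReal.mul_inv_cancel hm0 hmt) hp
  calc ∑ z : Fin (N + 1) → Fin m, ∫⁻ ξ, ‖ft (fun x => (dd m N e P z x : ℂ)) ξ‖ₑ ^ p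
      ≤ ∑ z : Fin (N + 1) → Fin m, ∫⁻ ξ, ∑ w, (m : ℝ≥0∞)⁻¹ *
        ‖ft (tr (c w) (η w) e (Fz m N (fun i => Equiv.swap z0 w (z i)))) ξ‖ₑ ^ p :=
        Finset.sum_le_sum fun z _ => lintegral_mono (h1 z)
    _ = ∑ z : Fin (N + 1) → Fin m, ∑ w, (m : ℝ≥0∞)⁻¹ * ∫⁻ ξ,
        ‖ft (tr (c w) (η w) e (Fz m N (fun i => Equiv.swap z0 w (z i)))) ξ‖ₑ ^ p := by
        refine Finset.sum_congr rfl fun z _ => ?_
        rw [lintegral_finsetSum _ fun w _ => (((hFc w _).measurable.enorm.pow_const p).const_mul _)]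
        refine Finset.sum_congr rfl fun w _ => ?_
        rw [lintegral_const_mul _ ((hFc w _).measurable.enorm.pow_const p)]
    _ = ∑ w, (m : ℝ≥0∞)⁻¹ * ∑ z : Fin (N + 1) → Fin m, ∫⁻ ξ,
        ‖ft (tr (c w) (η w) e (Fz m N z)) ξ‖ₑ ^ p := by
        rw [Finset.sum_comm]
        refine Finset.sum_congr rfl fun w _ => ?_
        rw [← Finset.mul_sum]
        congr 1
        exact Equiv.sum_comp (Equiv.piCongrRight fun _ : Fin (N + 1) => Equiv.swap z0 w)
          (fun z => ∫⁻ ξ, ‖ft (tr (c w) (η w) e (Fz m N z)) ξ‖ₑ ^ p)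
    _ ≤ ∑ _w : Fin m, (m : ℝ≥0∞)⁻¹ * A := by
        gcongr with w _
        exact hA w
    _ = A := by
        rw [Finset.sum_const, Finset.card_univ, Fintype.card_fin, nsmul_eq_mul, ← mul_assoc,
          ENNReal.mul_inv_cancel hm0 hmt, one_mul]

end Pool.Agent.X331.SI
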