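import Mathlib
import Pool.Agent.X331.SI.Step
set_option autoImplicit false

/-! The costs. -/

namespace Pool.Agent.X331.SI

open MeasureTheory Set Metric Complex
open scoped ENNReal NNReal RealInnerProductSpace
open Pool.Agent.Results.MP_6cbfb8_an.RidgeDensities (sigma ft)
open Pool.Agent.X93.ST Pool.Agent.X93.ST.Slab

variable {n : ℕ}

/-- the mean error of the approximation of the coefficients -/
noncomputable def er (m : ℕ) (P : Fin m → E n → ℝ) (t : sphere (0 : E n) 1 → ℝ)
    (x : sphere (0 : E n) 1) : ℝ := (∑ w, |P w x - cw m (Int.fract (t x)) w|) / m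

theorem pt_cost1 (m N : ℕ) (hm : 1 ≤ m) (e : E n) (P : Fin m → E n → ℝ)
    (t : sphere (0 : E n) 1 → ℝ) (x : sphere (0 : E n) 1) :
    ∑ z : Fin (N + 1) → Fin m, |dd m N e P z x| ≤
      (m : ℝ) ^ (N + 1) * (2 * dz (t x) + 2 * er m P t x) := by
  have hne : Nonempty (Fin m) := ⟨⟨0, by omega⟩⟩
  have hm0 : (0 : ℝ) < m := by exact_mod_cast hm
  have h1 := sum_one (fun w : Fin m => |P w x - (∑ w, P w x) / m|) (kap N ⟪e, (x : E n)⟫)
  rw [Fintype.card_fin] at h1
  unfold dd
  rw [h1]
  gcongr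
  rw [div_le_iff₀ hm0]
  set l := Int.fract (t x) with hl
  have hl0 : 0 ≤ l := Int.fract_nonneg _
  have hl1 : l < 1 := Int.fract_lt_one _
  have h2 : (∑ w, P w x) / m - l = (∑ w, (P w x - cw m l w)) / m := by
    rw [Finset.sum_sub_distrib, cw_sum m hm l hl0 hl1, sub_div, mul_div_cancel_left₀ _ hm0.ne']
  have h3 : |(∑ w, P w x) / m - l| ≤ er m P t x := by
    rw [h2, abs_div, abs_of_pos hm0]
    unfold er
    gcongr
    exact Finset.abs_sum_le_sum_abs _ _
  have h4 : ∀ w : Fin m, |P w x - (∑ w, P w x) / m| ≤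
      |P w x - cw m l w| + |cw m l w - l| + er m P t x := by
    intro w
    have : P w x - (∑ w, P w x) / m = (P w x - cw m l w) + (cw m l w - l) -
      ((∑ w, P w x) / m - l) := by ring
    rw [this]
    exact (abs_sub _ _).trans (add_le_add (abs_add_le _ _) h3)
  calc ∑ w, |P w x - (∑ w, P w x) / m|
      ≤ ∑ w, (|P w x - cw m l w| + |cw m l w - l| + er m P t x) :=
        Finset.sum_le_sum fun w _ => h4 w
    _ = m * er m P t x + ∑ w, |cw m l w - l| + m * er m P t x := by
        rw [Finset.sum_add_distrib, Finset.sum_add_distrib, Finset.sum_const, Finset.card_univ,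
          Fintype.card_fin, nsmul_eq_mul]
        congr 2
        unfold er
        rw [mul_div_cancel₀ _ hm0.ne']
    _ ≤ m * er m P t x + m * (2 * dz (t x)) + m * er m P t x := by
        gcongr
        exact cw_dev m hm (t x)
    _ = _ := by ring

theorem pt_cost2 (m N : ℕ) (hm : 1 ≤ m) (e : E n) (P : Fin m → E n → ℝ)
    (t : sphere (0 : E n) 1 → ℝ) (x : sphere (0 : E n) 1) :
    ∑ z : Fin (N + 1) → Fin m, dz (t x + dd m N e P z x) ≤
      (m : ℝ) ^ (N + 1) * (1 / m + 2 * er m P t x) := by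
  have hne : Nonempty (Fin m) := ⟨⟨0, by omega⟩⟩
  have hm0 : (0 : ℝ) < m := by exact_mod_cast hm
  have h1 := sum_one (fun w : Fin m => dz (t x + (P w x - (∑ w, P w x) / m)))
    (kap N ⟪e, (x : E n)⟫)
  rw [Fintype.card_fin] at h1
  unfold dd
  rw [h1]
  gcongr
  rw [div_le_iff₀ hm0]
  set l := Int.fract (t x) with hl
  have hl0 : 0 ≤ l := Int.fract_nonneg _
  have hl1 : l < 1 := Int.fract_lt_one _
  have h2 : (∑ w, P w x) / m - l = (∑ w, (P w x - cw m l w)) / m := by
    rw [Finset.sum_sub_distrib, cw_sum m hm l hl0 hl1, sub_div, mul_div_cancel_left₀ _ hm0.ne']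
  have h3 : |(∑ w, P w x) / m - l| ≤ er m P t x := by
    rw [h2, abs_div, abs_of_pos hm0]
    unfold er
    gcongr
    exact Finset.abs_sum_le_sum_abs _ _
  have h4 : ∀ w : Fin m, dz (t x + (P w x - (∑ w, P w x) / m)) ≤
      (if (w : ℕ) = 0 then 1 else 0) + (|P w x - cw m l w| + er m P t x) := by
    intro w
    have : t x + (P w x - (∑ w, P w x) / m) = (t x + (cw m l w - l)) +
      ((P w x - cw m l w) - ((∑ w, P w x) / m - l)) := by ring
    rw [this]
    refine (dz_lip _ _).trans (add_le_add (cw_hit m (t x) w) ?_)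
    exact (abs_sub _ _).trans (add_le_add le_rfl h3)
  have h5 : ∑ w : Fin m, (if (w : ℕ) = 0 then (1 : ℝ) else 0) ≤ 1 := by
    obtain ⟨k, rfl⟩ : ∃ k, m = k + 1 := ⟨m - 1, by omega⟩
    rw [Fin.sum_univ_succ]
    simp
  calc ∑ w, dz (t x + (P w x - (∑ w, P w x) / m))
      ≤ ∑ w : Fin m, ((if (w : ℕ) = 0 then 1 else 0) + (|P w x - cw m l w| + er m P t x)) :=
        Finset.sum_le_sum fun w _ => h4 w
    _ = ∑ w : Fin m, (if (w : ℕ) = 0 then (1 : ℝ) else 0) + (m * er m P t x + m * er m P t x) := by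
        rw [Finset.sum_add_distrib, Finset.sum_add_distrib, Finset.sum_const, Finset.card_univ,
          Fintype.card_fin, nsmul_eq_mul]
        congr 2
        unfold er
        rw [mul_div_cancel₀ _ hm0.ne']
    _ ≤ 1 + (m * er m P t x + m * er m P t x) := by gcongr
    _ = _ := by field_simp; ring

end Pool.Agent.X331.SI
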