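import Mathlib
import Pool.Agent.X331.SI.Cost
set_option autoImplicit false

/-! The choice of the increment. -/

namespace Pool.Agent.X331.SI

open MeasureTheory Set Metric Complex
open scoped ENNReal NNReal RealInnerProductSpace
open Pool.Agent.Results.MP_6cbfb8_an.RidgeDensities (sigma ft)
open Pool.Agent.X93.ST Pool.Agent.X93.ST.Slab

variable {n : ℕ}

theorem int_small (f : sphere (0 : E n) 1 → ℝ) (hf : Measurable f) (h0 : ∀ x, 0 ≤ f x)
    (h3 : ∀ x, f x ≤ 3) (ρ : ℝ) (hρ : 0 < ρ) (ε : ℝ) (hε : 0 < ε)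
    (hm : sigma n {x | ρ < f x} ≤ ENNReal.ofReal ε) :
    ∫ x, f x ∂(sigma n) ≤ ρ * (sigma n).real univ + 3 * ε := by
  have hms : MeasurableSet {x | ρ < f x} := measurableSet_lt measurable_const hf
  have hi : Integrable f (sigma n) := Integrable.of_bound hf.aestronglyMeasurable 3
    (Filter.Eventually.of_forall fun x => by
      rw [Real.norm_eq_abs, abs_of_nonneg (h0 x)]; exact h3 x)
  have h1 : ∀ x, f x ≤ ρ + ({x | ρ < f x}).indicator (fun _ => (3 : ℝ)) x := by
    intro x
    by_cases hx : ρ < f x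
    · rw [indicator_of_mem (show x ∈ {x | ρ < f x} from hx)]
      linarith [h3 x]
    · rw [indicator_of_notMem (show x ∉ {x | ρ < f x} from hx)]
      linarith [not_lt.1 hx]
  have h2 : Integrable (({x | ρ < f x}).indicator (fun _ => (3 : ℝ))) (sigma n) :=
    (integrable_const _).indicator hms
  calc ∫ x, f x ∂(sigma n) ≤ ∫ x, (ρ + ({x | ρ < f x}).indicator (fun _ => (3 : ℝ)) x) ∂(sigma n) :=
        integral_mono hi ((integrable_const _).add h2) h1
    _ = ρ * (sigma n).real univ + 3 * (sigma n).real {x | ρ < f x} := by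
        rw [integral_add (integrable_const _) h2, integral_const, integral_indicator hms,
          setIntegral_const, smul_eq_mul, smul_eq_mul]
        ring
    _ ≤ _ := by
        gcongr
        exact ENNReal.toReal_le_of_le_ofReal hε.le hm

theorem cwt_meas (m : ℕ) (t : sphere (0 : E n) 1 → ℝ) (ht : Measurable t) (w : Fin m) :
    Measurable fun x => cw m (Int.fract (t x)) w := (cw_meas m w).comp (measurable_fract.comp ht)

theorem family (t : sphere (0 : E n) 1 → ℝ) (ht : Measurable t) (m : ℕ) (κ : ℝ) (hκ : 0 < κ) :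
    ∃ (P : Fin m → E n → ℝ) (L : Fin m → ℕ) (c : ∀ w, Fin (L w) → ℂ)
      (η : ∀ w, Fin (L w) → E n),
      (∀ w x, trig (c w) (η w) x = (P w x : ℂ)) ∧ (∀ w, Continuous (P w)) ∧
      (∀ w (x : sphere (0 : E n) 1), |P w x| ≤ 2) ∧
      ∀ w, ∫ x, |P w x - cw m (Int.fract (t x)) w| ∂(sigma n) ≤ κ := by
  set S : ℝ := (sigma n).real univ with hS
  have hS0 : 0 ≤ S := measureReal_nonneg
  have h : ∀ w : Fin m, ∃ (P : E n → ℝ) (L : ℕ) (c : Fin L → ℂ) (η : Fin L → E n),
      (∀ x, trig c η x = (P x : ℂ)) ∧ Continuous P ∧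
      (∀ x : sphere (0 : E n) 1, |P x| ≤ 2) ∧
      ∫ x, |P x - cw m (Int.fract (t x)) w| ∂(sigma n) ≤ κ := by
    intro w
    have hcm := cwt_meas m t ht w
    have hmem : ∀ x, 0 ≤ cw m (Int.fract (t x)) w ∧ cw m (Int.fract (t x)) w ≤ 1 := fun x =>
      cw_mem m _ (Int.fract_nonneg _) w
    obtain ⟨L, c, η, h1, h2⟩ := approx (fun x => (cw m (Int.fract (t x)) w : ℂ))
      (Complex.measurable_ofReal.comp hcm) 1 one_pos (fun x => by
        rw [Complex.norm_real, Real.norm_eq_abs, abs_of_nonneg (hmem x).1]; exact (hmem x).2)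
      (κ / (2 * (S + 1))) (by positivity) (κ / 6) (by positivity)
    obtain ⟨L', c', η', h3⟩ := re_trig c η
    refine ⟨fun x => (trig c η x).re, L', c', η', h3, Complex.continuous_re.comp (trig_cont c η),
      ?_, ?_⟩
    · intro x
      refine (Complex.abs_re_le_norm _).trans ((h1 x).trans (by norm_num))
    · have hPm : Measurable fun x : sphere (0 : E n) 1 => (trig c η (x : E n)).re :=
        ((Complex.continuous_re.comp (trig_cont c η)).comp continuous_subtype_val).measurable
      have hle : ∀ x : sphere (0 : E n) 1, |(trig c η (x : E n)).re - cw m (Int.fract (t x)) w| ≤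
          ‖(cw m (Int.fract (t x)) w : ℂ) - trig c η x‖ := by
        intro x
        have : (trig c η (x : E n)).re - cw m (Int.fract (t x)) w =
          -((cw m (Int.fract (t x)) w : ℂ) - trig c η x).re := by simp
        rw [this, abs_neg]
        exact Complex.abs_re_le_norm _
      have h4 := int_small (n := n) (fun x => |(trig c η (x : E n)).re -
        cw m (Int.fract (t x)) w|) ((hPm.sub hcm).abs) (fun x => abs_nonneg _) (fun x => by
          have e1 : |(trig c η (x : E n)).re| ≤ 2 :=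
            (Complex.abs_re_le_norm _).trans ((h1 x).trans (by norm_num))
          have e2 := hmem x
          rw [abs_le] at e1 ⊢
          constructor <;> linarith [e1.1, e1.2, e2.1, e2.2])
        (κ / (2 * (S + 1))) (by positivity) (κ / 6) (by positivity)
        ((measure_mono fun x hx => lt_of_lt_of_le hx (hle x)).trans h2)
      refine h4.trans ?_
      rw [← hS]
      have : κ / (2 * (S + 1)) * S ≤ κ / 2 := by
        rw [div_mul_eq_mul_div, div_le_div_iff₀ (by positivity) (by norm_num)]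
        nlinarith
      linarith
  choose P L c η h1 h2 h3 h4 using h
  exact ⟨P, L, c, η, h1, h2, h3, h4⟩

theorem er_meas (m : ℕ) (P : Fin m → E n → ℝ) (hP : ∀ w, Continuous (P w))
    (t : sphere (0 : E n) 1 → ℝ) (ht : Measurable t) : Measurable (er m P t) := by
  unfold er
  refine Measurable.div_const (Finset.measurable_fun_sum _ fun w _ => ?_) _
  exact ((((hP w).comp continuous_subtype_val).measurable).sub (cwt_meas m t ht w)).abs

theorem er_bd (m : ℕ) (hm : 1 ≤ m) (P : Fin m → E n → ℝ)
    (hP2 : ∀ w (x : sphere (0 : E n) 1), |P w x| ≤ 2)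
    (t : sphere (0 : E n) 1 → ℝ) (x : sphere (0 : E n) 1) : 0 ≤ er m P t x ∧ er m P t x ≤ 3 := by
  have hm0 : (0 : ℝ) < m := by exact_mod_cast hm
  unfold er
  refine ⟨by positivity, ?_⟩
  rw [div_le_iff₀ hm0]
  calc _ ≤ ∑ _w : Fin m, (3 : ℝ) := Finset.sum_le_sum fun w _ => by
        have e1 := hP2 w x
        have e2 := cw_mem m (Int.fract (t x)) (Int.fract_nonneg _) w
        rw [abs_le] at e1 ⊢
        constructor <;> linarith [e1.1, e1.2, e2.1, e2.2]
    _ = 3 * m := by simp; ring

theorem er_int (m : ℕ) (hm : 1 ≤ m) (P : Fin m → E n → ℝ) (hP : ∀ w, Continuous (P w))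
    (hP2 : ∀ w (x : sphere (0 : E n) 1), |P w x| ≤ 2)
    (t : sphere (0 : E n) 1 → ℝ) (ht : Measurable t) (κ : ℝ)
    (h : ∀ w, ∫ x, |P w x - cw m (Int.fract (t x)) w| ∂(sigma n) ≤ κ) :
    ∫ x, er m P t x ∂(sigma n) ≤ κ := by
  have hm0 : (0 : ℝ) < m := by exact_mod_cast hm
  unfold er
  rw [integral_div, div_le_iff₀ hm0, integral_finsetSum]
  · calc _ ≤ ∑ _w : Fin m, κ := Finset.sum_le_sum fun w _ => h w
      _ = κ * m := by simp; ring
  · intro w _
    refine Integrable.of_bound ((((hP w).comp continuous_subtype_val).measurable).sub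
      (cwt_meas m t ht w)).abs.aestronglyMeasurable 3 (Filter.Eventually.of_forall fun x => ?_)
    have e1 := hP2 w x
    have e2 := cw_mem m (Int.fract (t x)) (Int.fract_nonneg _) w
    rw [Real.norm_eq_abs, abs_abs]
    rw [abs_le] at e1 ⊢
    constructor <;> linarith [e1.1, e1.2, e2.1, e2.2]

end Pool.Agent.X331.SI
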