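import Mathlib
import Pool.Agent.X331.SI.Pick
set_option autoImplicit false

/-! One step. -/

namespace Pool.Agent.X331.SI

open MeasureTheory Set Metric Complex
open scoped ENNReal NNReal RealInnerProductSpace
open Pool.Agent.Results.MP_6cbfb8_an.RidgeDensities (sigma ft)
open Pool.Agent.X93.ST Pool.Agent.X93.ST.Slab

theorem one_step2 (n : ℕ) (hn : 3 ≤ n) (p : ℝ) (hp1 : 2 * (n : ℝ) / (n - 1) < p) (hp2 : p ≤ 4)
    (t : sphere (0 : E n) 1 → ℝ) (ht : Measurable t) (ε : ℝ) (hε : 0 < ε) (δ : ℝ) (hδ : 0 < δ) :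
    ∃ d : sphere (0 : E n) 1 → ℝ, Measurable d ∧ (∀ x, |d x| ≤ 4) ∧
      ∫ x, |d x| ∂(sigma n) ≤ 6 * ∫ x, dz (t x) ∂(sigma n) + ε ∧
      ∫ x, dz (t x + d x) ∂(sigma n) ≤ ε ∧
      (∀ r : ℝ, 2 * (n : ℝ) / (n - 1) < r →
        MemLp (ft fun x => (d x : ℂ)) (ENNReal.ofReal r)) ∧
      ∀ r : ℝ≥0∞, ENNReal.ofReal p ≤ r →
        eLpNorm (ft fun x => (d x : ℂ)) r volume ≤ ENNReal.ofReal δ := by
  obtain ⟨e, he, hs⟩ := slabs n hn
  set S : ℝ := (sigma n).real univ with hS
  have hS0 : 0 < S := sig_pos n (by omega)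
  have hn1 : (1 : ℝ) < n := by exact_mod_cast (by omega : 1 < n)
  have hpc : 2 < 2 * (n : ℝ) / (n - 1) := by
    rw [lt_div_iff₀ (by linarith)]; linarith
  set m : ℕ := ⌈6 * S / ε⌉₊ + 2 with hm
  have hm2 : 2 ≤ m := by omega
  have hmR : (2 : ℝ) ≤ m := by exact_mod_cast hm2
  have hm0 : (0 : ℝ) < m := by linarith
  have hm3 : S / m ≤ ε / 6 := by
    rw [div_le_iff₀ hm0]
    have h1 : 6 * S / ε ≤ m := by
      rw [hm]; push_cast
      linarith [Nat.le_ceil (6 * S / ε)]
    rw [div_le_iff₀ hε] at h1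
    linarith
  obtain ⟨P, L, c, η, hP, hPc, hP2, hPi⟩ := family t ht m (ε / 12) (by positivity)
  set B : ℝ := ∑ w, ∑ j, ‖c w j‖ with hB
  have hB0 : 0 ≤ B := Finset.sum_nonneg fun _ _ => Finset.sum_nonneg fun _ _ => norm_nonneg _
  have hBw : ∀ w, ∑ j, ‖c w j‖ ≤ B := fun w =>
    Finset.single_le_sum (f := fun w => ∑ j, ‖c w j‖)
      (fun _ _ => Finset.sum_nonneg fun _ _ => norm_nonneg _) (Finset.mem_univ w)
  set Λ : ℝ := 2 * Real.pi * (4 * S) with hΛ
  have hΛ0 : 0 < Λ := by positivity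
  have hv : 0 < (ENNReal.ofReal ((δ / 2) ^ p) * volume (ball (0 : E n) (δ / (2 * Λ)))).toReal := by
    apply ENNReal.toReal_pos
    · apply mul_ne_zero
      · simp; positivity
      · exact (measure_ball_pos volume _ (by positivity)).ne'
    · exact ENNReal.mul_ne_top ENNReal.ofReal_ne_top measure_ball_lt_top.ne
  set V : ℝ := (ENNReal.ofReal ((δ / 2) ^ p) * volume (ball (0 : E n) (δ / (2 * Λ)))).toReal
    with hV
  set τ : ℝ := min (δ ^ p) (V / 2) / 3 with hτ
  have hτ0 : 0 < τ := by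
    rw [hτ]
    exact div_pos (lt_min (by positivity) (by positivity)) (by norm_num)
  obtain ⟨N, hN⟩ := average2 n hn p hp1 hp2 e he hs B hB0 m hm2 τ hτ0
  have hav := avg_dd m N hm2 p (by linarith) e P L c η hP
    (ENNReal.ofReal ((m : ℝ) ^ (N + 1) * τ)) (fun w => hN _ _ _ (hBw w))
  set M : ℝ := (m : ℝ) ^ (N + 1) with hM
  have hM0 : 0 < M := by positivity
  have hcardz : ((Finset.univ : Finset (Fin (N + 1) → Fin m)).card : ℝ) = M := by
    rw [Finset.card_univ, Fintype.card_pi, hM]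
    simp
  have hne : Nonempty (Fin m) := ⟨⟨0, by omega⟩⟩
  -- measurability and bounds
  have hdm : ∀ z, Measurable (dd m N e P z) := dd_meas m N e P hPc
  have hdb : ∀ z x, |dd m N e P z x| ≤ 4 := dd_le m N (by omega) e P hP2
  have hi1 : ∀ z, Integrable (fun x => |dd m N e P z x|) (sigma n) := fun z =>
    Integrable.of_bound (hdm z).abs.aestronglyMeasurable 4 (Filter.Eventually.of_forall fun x => by
      rw [Real.norm_eq_abs, abs_abs]; exact hdb z x)
  have hdzt : Integrable (fun x => dz (t x)) (sigma n) :=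
    Integrable.of_bound (dz_meas.comp ht).aestronglyMeasurable (1 / 2)
      (Filter.Eventually.of_forall fun x => by
        rw [Real.norm_eq_abs, abs_of_nonneg (dz_nonneg _)]; exact dz_le _)
  have hi2 : ∀ z, Integrable (fun x => dz (t x + dd m N e P z x)) (sigma n) := fun z =>
    Integrable.of_bound (dz_meas.comp (ht.add (hdm z))).aestronglyMeasurable (1 / 2)
      (Filter.Eventually.of_forall fun x => by
        rw [Real.norm_eq_abs, abs_of_nonneg (dz_nonneg _)]; exact dz_le _)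
  have hei : Integrable (er m P t) (sigma n) :=
    Integrable.of_bound (er_meas m P hPc t ht).aestronglyMeasurable 3
      (Filter.Eventually.of_forall fun x => by
        rw [Real.norm_eq_abs, abs_of_nonneg (er_bd m (by omega) P hP2 t x).1]
        exact (er_bd m (by omega) P hP2 t x).2)
  have heI : ∫ x, er m P t x ∂(sigma n) ≤ ε / 12 :=
    er_int m (by omega) P hPc hP2 t ht (ε / 12) hPi
  set D : ℝ := ∫ x, dz (t x) ∂(sigma n) with hD
  have hD0 : 0 ≤ D := integral_nonneg fun x => dz_nonneg _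
  -- first cost
  have hc1 : ∑ z, ∫ x, |dd m N e P z x| ∂(sigma n) ≤ M * (2 * D + ε / 6) := by
    rw [← integral_finsetSum _ fun z _ => hi1 z]
    calc ∫ x, ∑ z, |dd m N e P z x| ∂(sigma n)
        ≤ ∫ x, M * (2 * dz (t x) + 2 * er m P t x) ∂(sigma n) := by
          refine integral_mono (integrable_finsetSum _ fun z _ => hi1 z) ?_ fun x =>
            pt_cost1 m N (by omega) e P t x
          exact ((hdzt.const_mul 2).add (hei.const_mul 2)).const_mul M
      _ = M * (2 * D + 2 * ∫ x, er m P t x ∂(sigma n)) := by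
          rw [integral_const_mul, integral_add (hdzt.const_mul 2) (hei.const_mul 2),
            integral_const_mul, integral_const_mul]
      _ ≤ _ := by
          apply mul_le_mul_of_nonneg_left _ hM0.le
          linarith
  -- second cost
  have hc2 : ∑ z, ∫ x, dz (t x + dd m N e P z x) ∂(sigma n) ≤ M * (ε / 3) := by
    rw [← integral_finsetSum _ fun z _ => hi2 z]
    calc ∫ x, ∑ z, dz (t x + dd m N e P z x) ∂(sigma n)
        ≤ ∫ x, M * (1 / m + 2 * er m P t x) ∂(sigma n) := by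
          refine integral_mono (integrable_finsetSum _ fun z _ => hi2 z) ?_ fun x =>
            pt_cost2 m N (by omega) e P t x
          exact ((integrable_const _).add (hei.const_mul 2)).const_mul M
      _ = M * (S / m + 2 * ∫ x, er m P t x ∂(sigma n)) := by
          rw [integral_const_mul, integral_add (integrable_const _) (hei.const_mul 2),
            integral_const_mul, integral_const, smul_eq_mul, ← hS]
          ring
      _ ≤ _ := by
          apply mul_le_mul_of_nonneg_left _ hM0.le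
          linarith
  -- third cost
  set v : (Fin (N + 1) → Fin m) → ℝ := fun z =>
    (∫⁻ ξ, ‖ft (fun x => (dd m N e P z x : ℂ)) ξ‖ₑ ^ p).toReal with hv'
  have hfin : ∀ z : Fin (N + 1) → Fin m,
      ∫⁻ ξ, ‖ft (fun x => (dd m N e P z x : ℂ)) ξ‖ₑ ^ p ≠ ⊤ := by
    intro z
    have h1 : ∫⁻ ξ, ‖ft (fun x => (dd m N e P z x : ℂ)) ξ‖ₑ ^ p ≤
        ∑ z : Fin (N + 1) → Fin m, ∫⁻ ξ, ‖ft (fun x => (dd m N e P z x : ℂ)) ξ‖ₑ ^ p :=
      Finset.single_le_sum (f := fun z : Fin (N + 1) → Fin m =>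
        ∫⁻ ξ, ‖ft (fun x => (dd m N e P z x : ℂ)) ξ‖ₑ ^ p) (fun _ _ => zero_le)
        (Finset.mem_univ z)
    exact ne_top_of_le_ne_top ENNReal.ofReal_ne_top (h1.trans hav)
  have hsv : ∑ z, v z ≤ M * τ := by
    rw [hv']
    simp only
    rw [← ENNReal.toReal_sum fun z _ => hfin z]
    exact ENNReal.toReal_le_of_le_ofReal (by positivity) hav
  set a1 : ℝ := 2 * D + ε / 6 with ha1
  have ha10 : 0 < a1 := by positivity
  obtain ⟨z, -, hz⟩ := Finset.exists_le_of_sum_le (s := (Finset.univ :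
    Finset (Fin (N + 1) → Fin m)))
    (f := fun z => (∫ x, |dd m N e P z x| ∂(sigma n)) / (3 * a1) +
      (∫ x, dz (t x + dd m N e P z x) ∂(sigma n)) / ε + v z / (3 * τ))
    (g := fun _ => (1 : ℝ)) Finset.univ_nonempty (by
      rw [Finset.sum_add_distrib, Finset.sum_add_distrib, ← Finset.sum_div, ← Finset.sum_div,
        ← Finset.sum_div, Finset.sum_const, nsmul_eq_mul, hcardz]
      have h1 : (∑ z, ∫ x, |dd m N e P z x| ∂(sigma n)) / (3 * a1) ≤ M / 3 := by
        rw [div_le_iff₀ (by positivity)]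
        calc _ ≤ _ := hc1
          _ = _ := by ring
      have h2 : (∑ z, ∫ x, dz (t x + dd m N e P z x) ∂(sigma n)) / ε ≤ M / 3 := by
        rw [div_le_iff₀ hε]
        calc _ ≤ _ := hc2
          _ = _ := by ring
      have h3 : (∑ z, v z) / (3 * τ) ≤ M / 3 := by
        rw [div_le_iff₀ (by positivity)]
        calc _ ≤ _ := hsv
          _ = _ := by ring
      linarith)
  have hz1 : 0 ≤ ∫ x, |dd m N e P z x| ∂(sigma n) := integral_nonneg fun x => abs_nonneg _
  have hz2 : 0 ≤ ∫ x, dz (t x + dd m N e P z x) ∂(sigma n) := integral_nonneg fun x =>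
    dz_nonneg _
  have hz3 : 0 ≤ v z := ENNReal.toReal_nonneg
  have b1 : 0 ≤ (∫ x, |dd m N e P z x| ∂(sigma n)) / (3 * a1) := by positivity
  have b2 : 0 ≤ (∫ x, dz (t x + dd m N e P z x) ∂(sigma n)) / ε := by positivity
  have b3 : 0 ≤ v z / (3 * τ) := by positivity
  have k1 : (∫ x, |dd m N e P z x| ∂(sigma n)) / (3 * a1) ≤ 1 := by linarith
  have k2 : (∫ x, dz (t x + dd m N e P z x) ∂(sigma n)) / ε ≤ 1 := by linarith
  have k3 : v z / (3 * τ) ≤ 1 := by linarith
  rw [div_le_one (by positivity)] at k1 k2 k3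
  set u : sphere (0 : E n) 1 → ℂ := fun x => (dd m N e P z x : ℂ) with hu
  have hum : Measurable u := Complex.measurable_ofReal.comp (hdm z)
  have hub : ∀ x, ‖u x‖ ≤ 4 := fun x => by
    rw [hu, Complex.norm_real, Real.norm_eq_abs]; exact hdb z x
  have hui : Integrable u (sigma n) := int_of_bdd hum hub
  have huf : ∫⁻ ξ, ‖ft u ξ‖ₑ ^ p ≤ ENNReal.ofReal (min (δ ^ p) (V / 2)) := by
    rw [← ENNReal.ofReal_toReal (hfin z)]
    apply ENNReal.ofReal_le_ofReal
    calc _ ≤ 3 * τ := k3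
      _ = _ := by rw [hτ]; ring
  refine ⟨dd m N e P z, hdm z, hdb z, ?_, k2, ?_, ?_⟩
  · calc _ ≤ 3 * a1 := k1
      _ ≤ _ := by rw [ha1]; linarith
  · intro r hr
    obtain ⟨C, hC, h⟩ := ridge n hn r hr
    set z0 : Fin m := ⟨0, by omega⟩ with hz0
    have h1 : ft u = fun ξ => ∑ w, (-(1 / (m : ℂ))) *
        ft (tr (c w) (η w) e (Fz m N (fun i => Equiv.swap z0 w (z i)))) ξ :=
      funext fun ξ => ft_dd m N hm2 e P L c η hP z0 rfl z ξ
    rw [h1]
    refine memLp_finsetSum _ fun w _ => ?_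
    exact ((h (L w) (c w) (η w) e he (Fz m N _) (Fz_meas m N _) m (Fz_le m N hm2 _)).1).const_mul _
  · have hlip : ∀ ξ ξ', ‖ft u ξ - ft u ξ'‖ ≤ Λ * ‖ξ - ξ'‖ := by
      intro ξ ξ'
      refine (ft_lip hui ξ ξ').trans ?_
      have h1 := int_norm_le hum hub
      rw [hΛ]
      gcongr
    have hsup := sup_small (ft u) Λ hΛ0 hlip p (by linarith) δ hδ (by
      refine lt_of_le_of_lt huf ?_
      rw [← ENNReal.ofReal_toReal (a := ENNReal.ofReal ((δ / 2) ^ p) *
        volume (ball (0 : E n) (δ / (2 * Λ)))) (ENNReal.mul_ne_top ENNReal.ofReal_ne_top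
          measure_ball_lt_top.ne), ← hV]
      rw [ENNReal.ofReal_lt_ofReal_iff hv]
      refine lt_of_le_of_lt (min_le_right _ _) ?_
      linarith)
    intro r hr
    exact lp_all _ p (by linarith) δ hδ hsup
      (huf.trans (ENNReal.ofReal_le_ofReal (min_le_left _ _))) r hr

end Pool.Agent.X331.SI
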