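import Mathlib
import Pool.Agent.X331.SI.One
set_option autoImplicit false

/-! The iteration. -/

namespace Pool.Agent.X331.SI

open MeasureTheory Set Metric Complex Filter Topology
open scoped ENNReal NNReal RealInnerProductSpace
open Pool.Agent.Results.MP_6cbfb8_an.RidgeDensities (sigma ft)
open Pool.Agent.X93.ST Pool.Agent.X93.ST.Slab

/-- the `q`-norm of a function bounded by four, in terms of its integral -/
theorem q_norm {n : ℕ} (d : sphere (0 : E n) 1 → ℝ) (hd : Measurable d) (h4 : ∀ x, |d x| ≤ 4)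
    (q : ℝ) (hq : 1 ≤ q) (A : ℝ) (hA : ∫ x, |d x| ∂(sigma n) ≤ A) :
    eLpNorm d (ENNReal.ofReal q) (sigma n) ≤ ENNReal.ofReal (4 * A ^ (1 / q)) := by
  have hq0 : 0 < q := by linarith
  have hA0 : 0 ≤ A := (integral_nonneg fun x => abs_nonneg _).trans hA
  have hi : Integrable (fun x => |d x|) (sigma n) :=
    Integrable.of_bound hd.abs.aestronglyMeasurable 4 (Filter.Eventually.of_forall fun x => by
      rw [Real.norm_eq_abs, abs_abs]; exact h4 x)
  rw [eLpNorm_eq_lintegral_rpow_enorm_toReal (by simp; linarith) (by simp),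
    ENNReal.toReal_ofReal hq0.le]
  have h1 : ∫⁻ x, ‖d x‖ₑ ^ q ∂(sigma n) ≤ ENNReal.ofReal (4 ^ (q - 1) * A) := by
    calc ∫⁻ x, ‖d x‖ₑ ^ q ∂(sigma n)
        ≤ ∫⁻ x, ENNReal.ofReal (4 ^ (q - 1) * |d x|) ∂(sigma n) := by
          refine lintegral_mono fun x => ?_
          rw [← ofReal_norm, ENNReal.ofReal_rpow_of_nonneg (norm_nonneg _) hq0.le,
            Real.norm_eq_abs]
          apply ENNReal.ofReal_le_ofReal
          calc |d x| ^ q = |d x| ^ (q - 1) * |d x| := by
                rw [← Real.rpow_add_one' (abs_nonneg _) (by linarith)]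
                congr 1; ring
            _ ≤ _ := by
                refine mul_le_mul_of_nonneg_right ?_ (abs_nonneg _)
                exact Real.rpow_le_rpow (abs_nonneg _) (h4 x) (by linarith)
      _ = ENNReal.ofReal (∫ x, 4 ^ (q - 1) * |d x| ∂(sigma n)) := by
          rw [ofReal_integral_eq_lintegral_ofReal (hi.const_mul _)
            (Filter.Eventually.of_forall fun x => by positivity)]
      _ ≤ _ := by
          apply ENNReal.ofReal_le_ofReal
          rw [integral_const_mul]
          gcongr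
  refine (ENNReal.rpow_le_rpow h1 (by positivity)).trans ?_
  rw [ENNReal.ofReal_rpow_of_nonneg (by positivity) (by positivity)]
  apply ENNReal.ofReal_le_ofReal
  rw [Real.mul_rpow (by positivity) hA0, ← Real.rpow_mul (by norm_num)]
  refine mul_le_mul_of_nonneg_right ?_ (by positivity)
  calc (4 : ℝ) ^ ((q - 1) * (1 / q)) ≤ 4 ^ (1 : ℝ) := by
        apply Real.rpow_le_rpow_of_exponent_le (by norm_num)
        rw [mul_one_div, div_le_one hq0]; linarith
    _ = 4 := Real.rpow_one _

/-- the differences `h_k - g` -/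
noncomputable def tt {n : ℕ} (H : ℕ → (sphere (0 : E n) 1 → ℝ) → (sphere (0 : E n) 1 → ℝ))
    (g : sphere (0 : E n) 1 → ℝ) : ℕ → (sphere (0 : E n) 1 → ℝ)
  | 0 => fun x => - g x
  | k + 1 => fun x => tt H g k x + H k (tt H g k) x

theorem shifts (n : ℕ) (hn : 3 ≤ n) (g : sphere (0 : E n) 1 → ℝ) (hg : Measurable g)
    (p₀ : ℝ) (hp₀ : 2 * (n : ℝ) / (n - 1) < p₀) (η : ℝ) (hη : 0 < η) :
    ∃ k : sphere (0 : E n) 1 → ℤ, Measurable k ∧
      (∀ q : ℝ≥0∞, q ≠ ⊤ → MemLp (fun x => g x + k x) q (sigma n)) ∧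
      (∀ p : ℝ, 2 * (n : ℝ) / (n - 1) < p →
        MemLp (ft fun x => ((g x + k x : ℝ) : ℂ)) (ENNReal.ofReal p)) ∧
      ∀ r : ℝ≥0∞, ENNReal.ofReal p₀ ≤ r →
        eLpNorm (ft fun x => ((g x + k x : ℝ) : ℂ)) r volume ≤ ENNReal.ofReal η := by
  have hn1 : (1 : ℝ) < n := by exact_mod_cast (by omega : 1 < n)
  have hn3 : (3 : ℝ) ≤ n := by exact_mod_cast hn
  set pc : ℝ := 2 * (n : ℝ) / (n - 1) with hpc
  have hpc2 : 2 < pc := by
    rw [hpc, lt_div_iff₀ (by linarith)]; linarith
  have hpc3 : pc ≤ 3 := by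
    rw [hpc, div_le_iff₀ (by linarith)]; linarith
  set P : ℝ := min p₀ 4 with hP
  have hP1 : pc < P := lt_min hp₀ (by linarith)
  set pk : ℕ → ℝ := fun k => pc + (P - pc) / 2 ^ k with hpk
  have hpk1 : ∀ k, pc < pk k := by
    intro k
    have : 0 < (P - pc) / 2 ^ k := div_pos (by linarith) (by positivity)
    simp only [hpk]; linarith
  have hpk2 : ∀ k, pk k ≤ P := by
    intro k
    have : (P - pc) / 2 ^ k ≤ P - pc := div_le_self (by linarith) (one_le_pow₀ (by norm_num))
    simp only [hpk]; linarith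
  set S : ℝ := (sigma n).real univ with hS
  have hS0 : 0 < S := sig_pos n (by omega)
  -- the steps
  have hex : ∀ (k : ℕ) (t : sphere (0 : E n) 1 → ℝ), ∃ d : sphere (0 : E n) 1 → ℝ,
      Measurable t → Measurable d ∧ (∀ x, |d x| ≤ 4) ∧
      ∫ x, |d x| ∂(sigma n) ≤ 6 * ∫ x, dz (t x) ∂(sigma n) + (1 / 4) ^ k ∧
      ∫ x, dz (t x + d x) ∂(sigma n) ≤ (1 / 4) ^ k ∧
      (∀ r : ℝ, pc < r → MemLp (ft fun x => (d x : ℂ)) (ENNReal.ofReal r)) ∧
      ∀ r : ℝ≥0∞, ENNReal.ofReal (pk k) ≤ r →
        eLpNorm (ft fun x => (d x : ℂ)) r volume ≤ ENNReal.ofReal (η / 2 ^ (k + 1)) := by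
    intro k t
    by_cases ht : Measurable t
    · obtain ⟨d, hd⟩ := one_step2 n hn (pk k) (hpk1 k) ((hpk2 k).trans (min_le_right _ _)) t ht
        ((1 / 4) ^ k) (by positivity) (η / 2 ^ (k + 1)) (by positivity)
      exact ⟨d, fun _ => hd⟩
    · exact ⟨0, fun h => absurd h ht⟩
  choose H hH using hex
  set t : ℕ → (sphere (0 : E n) 1 → ℝ) := tt H g with htt
  have htm : ∀ k, Measurable (t k) := by
    intro k
    induction k with
    | zero => exact hg.neg
    | succ k ih => exact ih.add (hH k (t k) ih).1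
  set d : ℕ → (sphere (0 : E n) 1 → ℝ) := fun k => H k (t k) with hd
  have hdp := fun k => hH k (t k) (htm k)
  have hdm : ∀ k, Measurable (d k) := fun k => (hdp k).1
  have hd4 : ∀ k x, |d k x| ≤ 4 := fun k => (hdp k).2.1
  have htz : ∀ k, ∫ x, dz (t (k + 1) x) ∂(sigma n) ≤ (1 / 4) ^ k := fun k => (hdp k).2.2.2.1
  have hdi : ∀ k, Integrable (d k) (sigma n) := fun k =>
    Integrable.of_bound (hdm k).aestronglyMeasurable 4 (Eventually.of_forall fun x => by
      rw [Real.norm_eq_abs]; exact hd4 k x)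
  set C : ℝ := 3 * S + 25 with hC
  have hd1 : ∀ k, ∫ x, |d k x| ∂(sigma n) ≤ C * (1 / 4) ^ k := by
    intro k
    refine (hdp k).2.2.1.trans ?_
    cases k with
    | zero =>
      have h1 : ∫ x, dz (t 0 x) ∂(sigma n) ≤ 1 / 2 * S := by
        calc ∫ x, dz (t 0 x) ∂(sigma n) ≤ ∫ _x, (1 / 2 : ℝ) ∂(sigma n) := by
              refine integral_mono ?_ (integrable_const _) fun x => dz_le _
              exact Integrable.of_bound (dz_meas.comp (htm 0)).aestronglyMeasurable (1 / 2)
                (Eventually.of_forall fun x => by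
                  rw [Real.norm_eq_abs, abs_of_nonneg (dz_nonneg _)]; exact dz_le _)
          _ = _ := by rw [integral_const, smul_eq_mul]; ring
      rw [pow_zero, hC]; linarith
    | succ k =>
      have h1 := htz k
      have h2 : (0 : ℝ) < (1 / 4) ^ k := by positivity
      rw [hC, pow_succ]
      nlinarith
  -- the sum
  have hsumI : Summable fun k => ∫ x, |d k x| ∂(sigma n) :=
    Summable.of_nonneg_of_le (fun k => integral_nonneg fun x => abs_nonneg _) hd1
      ((summable_geometric_of_lt_one (by norm_num) (by norm_num)).mul_left C)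
  have hae : ∀ᵐ x ∂(sigma n), Summable fun k => d k x := by
    have h1 : ∫⁻ x, ∑' k, ‖d k x‖ₑ ∂(sigma n) ≠ ⊤ := by
      rw [lintegral_tsum fun k => (hdm k).enorm.aemeasurable]
      have h2 : ∀ k, ∫⁻ x, ‖d k x‖ₑ ∂(sigma n) = ENNReal.ofReal (∫ x, |d k x| ∂(sigma n)) := by
        intro k
        rw [ofReal_integral_eq_lintegral_ofReal (hdi k).abs
          (Eventually.of_forall fun x => abs_nonneg _)]
        refine lintegral_congr fun x => ?_
        rw [← ofReal_norm, Real.norm_eq_abs]
      simp_rw [h2]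
      rw [← ENNReal.ofReal_tsum_of_nonneg (fun k => integral_nonneg fun x => abs_nonneg _) hsumI]
      exact ENNReal.ofReal_ne_top
    have h3 := ae_lt_top (Measurable.ennreal_tsum fun k => (hdm k).enorm) h1
    filter_upwards [h3] with x hx
    have h4 : ∑' k, ((‖d k x‖₊ : ℝ≥0) : ℝ≥0∞) ≠ ⊤ := hx.ne
    have h5 := ENNReal.tsum_coe_ne_top_iff_summable.1 h4
    exact Summable.of_norm (NNReal.summable_coe.2 h5)
  set h : sphere (0 : E n) 1 → ℝ := fun x => ∑' k, d k x with hh
  have hlimx : ∀ᵐ x ∂(sigma n), Tendsto (fun K => ∑ k ∈ Finset.range K, d k x) atTop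
      (𝓝 (h x)) := by
    filter_upwards [hae] with x hx
    exact hx.hasSum.tendsto_sum_nat
  have hhm : AEMeasurable h (sigma n) :=
    aemeasurable_of_tendsto_metrizable_ae atTop
      (fun K => (Finset.measurable_fun_sum _ fun k _ => hdm k).aemeasurable) hlimx
  have htK : ∀ K x, t K x = ∑ k ∈ Finset.range K, d k x - g x := by
    intro K x
    induction K with
    | zero => simp [htt, tt]
    | succ K ih =>
      rw [Finset.sum_range_succ]
      change t K x + d K x = _
      rw [ih]; ring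
  -- the limit is `g` modulo the integers
  have hint : ∀ᵐ x ∂(sigma n), dz (h x - g x) = 0 := by
    have h1 : Tendsto (fun K => ∫ x, dz (t K x) ∂(sigma n)) atTop
        (𝓝 (∫ x, dz (h x - g x) ∂(sigma n))) := by
      refine tendsto_integral_of_dominated_convergence (fun _ => (1 / 2 : ℝ))
        (fun K => (dz_meas.comp (htm K)).aestronglyMeasurable) (integrable_const _)
        (fun K => Eventually.of_forall fun x => by
          rw [Real.norm_eq_abs, abs_of_nonneg (dz_nonneg _)]; exact dz_le _) ?_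
      filter_upwards [hlimx] with x hx
      have h2 : Tendsto (fun K => t K x) atTop (𝓝 (h x - g x)) := by
        simp_rw [htK]
        exact hx.sub_const _
      exact (dz_cont.tendsto _).comp h2
    have h2 : Tendsto (fun K : ℕ => ∫ x, dz (t (K + 1) x) ∂(sigma n)) atTop (𝓝 0) := by
      refine squeeze_zero (fun K => integral_nonneg fun x => dz_nonneg _) htz ?_
      exact tendsto_pow_atTop_nhds_zero_of_lt_one (by norm_num) (by norm_num)
    have h3 : ∫ x, dz (h x - g x) ∂(sigma n) = 0 :=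
      tendsto_nhds_unique (h1.comp (tendsto_add_atTop_nat 1)) h2
    have h4 : Integrable (fun x => dz (h x - g x)) (sigma n) :=
      Integrable.of_bound (dz_meas.comp_aemeasurable (hhm.sub hg.aemeasurable)).aestronglyMeasurable
        (1 / 2) (Eventually.of_forall fun x => by
          rw [Real.norm_eq_abs, abs_of_nonneg (dz_nonneg _)]; exact dz_le _)
    have h5 := (integral_eq_zero_iff_of_nonneg (fun x => dz_nonneg _) h4).1 h3
    exact h5
  have hkm : AEMeasurable (fun x => round (h x - g x)) (sigma n) := by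
    have h1 : Measurable fun y : ℝ => round y := by
      simp_rw [round_eq]
      exact Int.measurable_floor.comp (by fun_prop)
    exact h1.comp_aemeasurable (hhm.sub hg.aemeasurable)
  set k : sphere (0 : E n) 1 → ℤ := hkm.mk _ with hk
  have hkeq : ∀ᵐ x ∂(sigma n), g x + k x = h x := by
    filter_upwards [hkm.ae_eq_mk, hint] with x h1 h2
    rw [dz_zero_iff] at h2
    obtain ⟨j, hj⟩ := h2
    have h3 : k x = j := by
      rw [hk, ← h1, hj]; simp
    rw [h3, ← hj]; ring
  have hfteq : ft (fun x => ((g x + k x : ℝ) : ℂ)) = ft (fun x => (h x : ℂ)) := by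
    funext ξ
    unfold ft
    refine integral_congr_ae ?_
    filter_upwards [hkeq] with x hx
    rw [hx]
  -- convergence of the transforms
  have hui : ∀ k, Integrable (fun x => (d k x : ℂ)) (sigma n) := fun k => (hdi k).ofReal
  have hlim : ∀ ξ, Tendsto (fun K => ∑ k ∈ Finset.range K, ft (fun x => (d k x : ℂ)) ξ) atTop
      (𝓝 (ft (fun x => (h x : ℂ)) ξ)) := by
    intro ξ
    have h1 : HasSum (fun k => ft (fun x => (d k x : ℂ)) ξ) (ft (fun x => (h x : ℂ)) ξ) := by
      unfold ft
      have h2 := hasSum_integral_of_summable_integral_norm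
        (μ := sigma n) (F := fun k x => Complex.exp (-(2 * Real.pi * ⟪(x : E n), ξ⟫ : ℝ) * I) *
          (d k x : ℂ)) (fun k => ker_int (hui k) ξ) ?_
      · have h3 : (fun x : sphere (0 : E n) 1 =>
            Complex.exp (-(2 * Real.pi * ⟪(x : E n), ξ⟫ : ℝ) * I) * (h x : ℂ)) =
            fun x : sphere (0 : E n) 1 => ∑' k,
              Complex.exp (-(2 * Real.pi * ⟪(x : E n), ξ⟫ : ℝ) * I) * (d k x : ℂ) := by
          funext x
          simp only [hh]
          rw [tsum_mul_left, Complex.ofReal_tsum]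
        rw [h3]
        exact h2
      · refine hsumI.congr fun k => ?_
        refine integral_congr_ae (Eventually.of_forall fun x => ?_)
        simp only [norm_mul]
        rw [ker_norm, one_mul, Complex.norm_real, Real.norm_eq_abs]
    exact h1.tendsto_sum_nat
  have hcont : ∀ k, Continuous (ft (fun x => (d k x : ℂ))) := fun k => ft_cont (hui k)
  have hfatou : ∀ (r B : ℝ≥0∞) (K0 : ℕ), (∀ K, K0 ≤ K →
      eLpNorm (fun ξ => ∑ k ∈ Finset.range K, ft (fun x => (d k x : ℂ)) ξ) r volume ≤ B) →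
      eLpNorm (ft (fun x => (h x : ℂ))) r volume ≤ B := by
    intro r B K0 hB
    have h1 := Lp.eLpNorm_lim_le_liminf_eLpNorm (p := r) (μ := (volume : Measure (E n)))
      (f := fun K ξ => ∑ k ∈ Finset.range K, ft (fun x => (d k x : ℂ)) ξ)
      (fun K => (continuous_finsetSum _ fun k _ => hcont k).aestronglyMeasurable)
      (ft (fun x => (h x : ℂ)))
      (Eventually.of_forall hlim)
    refine h1.trans ?_
    refine liminf_le_of_frequently_le' ?_
    exact (eventually_atTop.2 ⟨K0, hB⟩).frequently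
  have hgeoη : HasSum (fun k : ℕ => η / 2 / 2 ^ k) η := hasSum_geometric_two' _
  have hpart : ∀ (s : Finset ℕ), ∑ k ∈ s, ENNReal.ofReal (η / 2 ^ (k + 1)) ≤
      ENNReal.ofReal η := by
    intro s
    rw [← ENNReal.ofReal_sum_of_nonneg fun _ _ => by positivity]
    apply ENNReal.ofReal_le_ofReal
    have h1 : ∀ k : ℕ, η / 2 ^ (k + 1) = η / 2 / 2 ^ k := by
      intro k; rw [pow_succ]; field_simp
    rw [Finset.sum_congr rfl fun k _ => h1 k]
    exact sum_le_hasSum s (fun k _ => by positivity) hgeoη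
  -- integrability of the limit
  have hmem1 : ∀ q : ℝ, 1 ≤ q → MemLp h (ENNReal.ofReal q) (sigma n) := by
    intro q hq
    have hq0 : 0 < q := by linarith
    have hC0 : 0 ≤ C := by positivity
    refine ⟨hhm.aestronglyMeasurable, ?_⟩
    set ρ : ℝ := (1 / 4) ^ (1 / q) with hρ
    have hρ1 : ρ < 1 := Real.rpow_lt_one (by norm_num) (by norm_num) (by positivity)
    have hρ0 : 0 ≤ ρ := by positivity
    have hb : ∀ k, eLpNorm (d k) (ENNReal.ofReal q) (sigma n) ≤
        ENNReal.ofReal (4 * C ^ (1 / q) * ρ ^ k) := by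
      intro k
      refine (q_norm (d k) (hdm k) (hd4 k) q hq _ (hd1 k)).trans ?_
      apply ENNReal.ofReal_le_ofReal
      rw [Real.mul_rpow hC0 (by positivity), ← Real.rpow_natCast (1 / 4 : ℝ) k,
        ← Real.rpow_mul (by norm_num), mul_comm ((k : ℕ) : ℝ) (1 / q),
        Real.rpow_mul (by norm_num), Real.rpow_natCast, ← hρ, mul_assoc]
    have hs : Summable fun k => 4 * C ^ (1 / q) * ρ ^ k :=
      (summable_geometric_of_lt_one hρ0 hρ1).mul_left _
    have h1 := Lp.eLpNorm_lim_le_liminf_eLpNorm (p := ENNReal.ofReal q) (μ := sigma n)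
      (f := fun K x => ∑ k ∈ Finset.range K, d k x)
      (fun K => (Finset.measurable_fun_sum _ fun k _ => hdm k).aestronglyMeasurable) h hlimx
    refine lt_of_le_of_lt (h1.trans (liminf_le_of_frequently_le'
      (Frequently.of_forall fun K => ?_))) (ENNReal.ofReal_lt_top
        (r := ∑' k, 4 * C ^ (1 / q) * ρ ^ k))
    have h2 := eLpNorm_sum_le (μ := sigma n) (s := Finset.range K)
      (f := fun k => d k) (fun k _ => (hdm k).aestronglyMeasurable)
      (show 1 ≤ ENNReal.ofReal q by
        rw [← ENNReal.ofReal_one]; exact ENNReal.ofReal_le_ofReal hq)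
    have h3 : (∑ k ∈ Finset.range K, d k) = fun x => ∑ k ∈ Finset.range K, d k x := by
      funext x; rw [Finset.sum_apply]
    rw [h3] at h2
    refine h2.trans ((Finset.sum_le_sum fun k _ => hb k).trans ?_)
    rw [← ENNReal.ofReal_sum_of_nonneg fun k _ => by positivity]
    exact ENNReal.ofReal_le_ofReal (hs.sum_le_tsum _ fun k _ => by positivity)
  have hhi : Integrable h (sigma n) := by
    have := hmem1 1 le_rfl
    rw [ENNReal.ofReal_one] at this
    exact memLp_one_iff_integrable.1 this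
  refine ⟨k, hkm.measurable_mk, ?_, ?_, ?_⟩
  · intro q hq
    have h1 := hmem1 (max q.toReal 1) (le_max_right _ _)
    have h2 : q ≤ ENNReal.ofReal (max q.toReal 1) := by
      rw [← ENNReal.ofReal_toReal hq]
      exact ENNReal.ofReal_le_ofReal (by simp)
    have h3 := h1.mono_exponent h2
    refine (memLp_congr_ae ?_).2 h3
    exact hkeq
  · intro p hp
    rw [hfteq]
    -- a K0 with pk K0 ≤ p
    obtain ⟨K0, hK0⟩ : ∃ K0, ∀ k, K0 ≤ k → pk k ≤ p := by
      obtain ⟨K0, hK0⟩ := exists_pow_lt_of_lt_one (show 0 < (p - pc) / (P - pc) from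
        div_pos (by linarith) (by linarith)) (show (1 / 2 : ℝ) < 1 by norm_num)
      refine ⟨K0, fun k hk => ?_⟩
      have h1 : (1 / 2 : ℝ) ^ k ≤ (1 / 2) ^ K0 :=
        pow_le_pow_of_le_one (by norm_num) (by norm_num) hk
      have h2 : (1 / 2 : ℝ) ^ k < (p - pc) / (P - pc) := lt_of_le_of_lt h1 hK0
      rw [lt_div_iff₀ (by linarith)] at h2
      simp only [hpk]
      rw [one_div, inv_pow, inv_mul_eq_div] at h2
      linarith
    have hr1 : 1 ≤ ENNReal.ofReal p := by
      rw [← ENNReal.ofReal_one]; exact ENNReal.ofReal_le_ofReal (by linarith)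
    refine ⟨(ft_cont hhi.ofReal).aestronglyMeasurable, ?_⟩
    set B0 : ℝ≥0∞ := ∑ k ∈ Finset.range K0,
      eLpNorm (ft (fun x => (d k x : ℂ))) (ENNReal.ofReal p) volume with hB0
    have hB0' : B0 < ⊤ := by
      rw [hB0, ENNReal.sum_lt_top]
      exact fun k _ => ((hdp k).2.2.2.2.1 p hp).2
    refine lt_of_le_of_lt (hfatou (ENNReal.ofReal p) (B0 + ENNReal.ofReal η) K0 fun K hK => ?_)
      (ENNReal.add_lt_top.2 ⟨hB0', ENNReal.ofReal_lt_top⟩)
    have h1 := eLpNorm_sum_le (μ := (volume : Measure (E n))) (s := Finset.range K)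
      (f := fun k => ft (fun x => (d k x : ℂ))) (fun k _ => (hcont k).aestronglyMeasurable) hr1
    have h2 : (∑ k ∈ Finset.range K, ft (fun x => (d k x : ℂ))) =
        fun ξ => ∑ k ∈ Finset.range K, ft (fun x => (d k x : ℂ)) ξ := by
      funext ξ; rw [Finset.sum_apply]
    rw [h2] at h1
    refine h1.trans ?_
    rw [← Finset.sum_range_add_sum_Ico _ hK]
    refine add_le_add le_rfl ?_
    refine le_trans (Finset.sum_le_sum fun k hk' => ?_) (hpart (Finset.Ico K0 K))
    refine (hdp k).2.2.2.2.2 _ (ENNReal.ofReal_le_ofReal ?_)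
    exact hK0 k (Finset.mem_Ico.1 hk').1
  · intro r hr
    rw [hfteq]
    have hr1 : 1 ≤ r := by
      refine le_trans ?_ hr
      rw [← ENNReal.ofReal_one]; exact ENNReal.ofReal_le_ofReal (by linarith)
    refine hfatou r (ENNReal.ofReal η) 0 fun K _ => ?_
    have h1 := eLpNorm_sum_le (μ := (volume : Measure (E n))) (s := Finset.range K)
      (f := fun k => ft (fun x => (d k x : ℂ))) (fun k _ => (hcont k).aestronglyMeasurable) hr1
    have h2 : (∑ k ∈ Finset.range K, ft (fun x => (d k x : ℂ))) =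
        fun ξ => ∑ k ∈ Finset.range K, ft (fun x => (d k x : ℂ)) ξ := by
      funext ξ; rw [Finset.sum_apply]
    rw [h2] at h1
    refine h1.trans (le_trans (Finset.sum_le_sum fun k _ => ?_) (hpart (Finset.range K)))
    refine (hdp k).2.2.2.2.2 r ?_
    refine le_trans (ENNReal.ofReal_le_ofReal ?_) hr
    exact (hpk2 k).trans (min_le_left _ _)

end Pool.Agent.X331.SI
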