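import Mathlib
import Pool.Agent.X331.SI.Main
set_option autoImplicit false

/-! The iteration, with arbitrary integrability. -/

namespace Pool.Agent.X331.SI

open MeasureTheory Set Metric Complex Filter Topology
open scoped ENNReal NNReal RealInnerProductSpace
open Pool.Agent.Results.MP_6cbfb8_an.RidgeDensities (sigma ft)
open Pool.Agent.X93.ST Pool.Agent.X93.ST.Slab

theorem shifts2 (n : ℕ) (hn : 3 ≤ n) (g : sphere (0 : E n) 1 → ℝ) (hg : Measurable g)
    (Φ : ℝ → ℝ) (hΦ : Monotone Φ)
    (p₀ : ℝ) (hp₀ : 2 * (n : ℝ) / (n - 1) < p₀) (η : ℝ) (hη : 0 < η) :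
    ∃ k : sphere (0 : E n) 1 → ℤ, Measurable k ∧
      ∫⁻ x, ENNReal.ofReal (Φ |g x + k x|) ∂(sigma n) < ⊤ ∧
      (∀ q : ℝ≥0∞, q ≠ ⊤ → MemLp (fun x => g x + k x) q (sigma n)) ∧
      (∀ p : ℝ, 2 * (n : ℝ) / (n - 1) < p →
        MemLp (ft fun x => ((g x + k x : ℝ) : ℂ)) (ENNReal.ofReal p)) ∧
      ∀ r : ℝ≥0∞, ENNReal.ofReal p₀ ≤ r →
        eLpNorm (ft fun x => ((g x + k x : ℝ) : ℂ)) r volume ≤ ENNReal.ofReal η := by
  have hn1 : (1 : ℝ) < n := by exact_mod_cast (by omega : 1 < n)
  have hn3 : (3 : ℝ) ≤ n := by exact_mod_cast hn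
  set pc : ℝ := 2 * (n : ℝ) / (n - 1) with hpc
  have hpc2 : 2 < pc := by
    rw [hpc, lt_div_iff₀ (by linarith)]; linarith
  have hpc3 : pc ≤ 3 := by
    rw [hpc, div_le_iff₀ (by linarith)]; linarith
  set P : ℝ := min p₀ 4 with hP
  have hP1 : pc < P := lt_min hp₀ (by linarith)
  set pk : ℕ → ℝ := fun k => pc + (P - pc) / 2 ^ k with hpk
  have hpk1 : ∀ k, pc < pk k := by
    intro k
    have : 0 < (P - pc) / 2 ^ k := div_pos (by linarith) (by positivity)
    simp only [hpk]; linarith
  have hpk2 : ∀ k, pk k ≤ P := by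
    intro k
    have : (P - pc) / 2 ^ k ≤ P - pc := div_le_self (by linarith) (one_le_pow₀ (by norm_num))
    simp only [hpk]; linarith
  set S : ℝ := (sigma n).real univ with hS
  have hS0 : 0 < S := sig_pos n (by omega)
  -- the weights
  set w : ℕ → ℝ := fun k => max (Φ (4 * k + 10)) 1 with hw
  have hw1 : ∀ k, 1 ≤ w k := fun k => le_max_right _ _
  have hwm : ∀ k, w k ≤ w (k + 1) := fun k => by
    simp only [hw]
    refine max_le_max (hΦ ?_) le_rfl
    push_cast; linarith
  set ε : ℕ → ℝ := fun k => (1 / 4) ^ k / w (k + 1) with hε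
  have hw0 : ∀ k, 0 < w k := fun k => lt_of_lt_of_le one_pos (hw1 k)
  have hε0 : ∀ k, 0 < ε k := fun k => div_pos (by positivity) (hw0 _)
  have hε1 : ∀ k, ε k ≤ (1 / 4) ^ k := fun k => div_le_self (by positivity) (hw1 _)
  have hεm : ∀ k, ε (k + 1) ≤ ε k := fun k => by
    simp only [hε]
    apply div_le_div₀ (by positivity) _ (hw0 _) (hwm _)
    exact pow_le_pow_of_le_one (by norm_num) (by norm_num) (Nat.le_succ k)
  -- the steps
  have hex : ∀ (k : ℕ) (t : sphere (0 : E n) 1 → ℝ), ∃ d : sphere (0 : E n) 1 → ℝ,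
      Measurable t → Measurable d ∧ (∀ x, |d x| ≤ 4) ∧
      ∫ x, |d x| ∂(sigma n) ≤ 6 * ∫ x, dz (t x) ∂(sigma n) + ε k ∧
      ∫ x, dz (t x + d x) ∂(sigma n) ≤ ε k ∧
      (∀ r : ℝ, pc < r → MemLp (ft fun x => (d x : ℂ)) (ENNReal.ofReal r)) ∧
      ∀ r : ℝ≥0∞, ENNReal.ofReal (pk k) ≤ r →
        eLpNorm (ft fun x => (d x : ℂ)) r volume ≤ ENNReal.ofReal (η / 2 ^ (k + 1)) := by
    intro k t
    by_cases ht : Measurable t
    · obtain ⟨d, hd⟩ := one_step2 n hn (pk k) (hpk1 k) ((hpk2 k).trans (min_le_right _ _)) t ht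
        (ε k) (hε0 k) (η / 2 ^ (k + 1)) (by positivity)
      exact ⟨d, fun _ => hd⟩
    · exact ⟨0, fun h => absurd h ht⟩
  choose H hH using hex
  set t : ℕ → (sphere (0 : E n) 1 → ℝ) := tt H g with htt
  have htm : ∀ k, Measurable (t k) := by
    intro k
    induction k with
    | zero => exact hg.neg
    | succ k ih => exact ih.add (hH k (t k) ih).1
  set d : ℕ → (sphere (0 : E n) 1 → ℝ) := fun k => H k (t k) with hd
  have hdp := fun k => hH k (t k) (htm k)
  have hdm : ∀ k, Measurable (d k) := fun k => (hdp k).1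
  have hd4 : ∀ k x, |d k x| ≤ 4 := fun k => (hdp k).2.1
  have htz' : ∀ k, ∫ x, dz (t (k + 1) x) ∂(sigma n) ≤ ε k := fun k => (hdp k).2.2.2.1
  have htz : ∀ k, ∫ x, dz (t (k + 1) x) ∂(sigma n) ≤ (1 / 4) ^ k := fun k =>
    (htz' k).trans (hε1 k)
  have hdi : ∀ k, Integrable (d k) (sigma n) := fun k =>
    Integrable.of_bound (hdm k).aestronglyMeasurable 4 (Eventually.of_forall fun x => by
      rw [Real.norm_eq_abs]; exact hd4 k x)
  set C : ℝ := w 0 * (3 * S + 1) + 28 with hC
  have hC0' : 0 < C := by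
    have := hw0 0
    positivity
  have hdw : ∀ k, w k * ∫ x, |d k x| ∂(sigma n) ≤ C * (1 / 4) ^ k := by
    intro k
    cases k with
    | zero =>
      have h1 : ∫ x, dz (t 0 x) ∂(sigma n) ≤ 1 / 2 * S := by
        calc ∫ x, dz (t 0 x) ∂(sigma n) ≤ ∫ _x, (1 / 2 : ℝ) ∂(sigma n) := by
              refine integral_mono ?_ (integrable_const _) fun x => dz_le _
              exact Integrable.of_bound (dz_meas.comp (htm 0)).aestronglyMeasurable (1 / 2)
                (Eventually.of_forall fun x => by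
                  rw [Real.norm_eq_abs, abs_of_nonneg (dz_nonneg _)]; exact dz_le _)
          _ = _ := by rw [integral_const, smul_eq_mul]; ring
      have h2 := (hdp 0).2.2.1
      have h3 := hε1 0
      rw [pow_zero] at h3
      have h4 : ∫ x, |d 0 x| ∂(sigma n) ≤ 3 * S + 1 := by
        refine h2.trans ?_; linarith
      rw [pow_zero, mul_one, hC]
      have := mul_le_mul_of_nonneg_left h4 (hw0 0).le
      linarith
    | succ k =>
      have h1 := htz' k
      have h2 := (hdp (k + 1)).2.2.1
      have h3 := hεm k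
      have h4 : ∫ x, |d (k + 1) x| ∂(sigma n) ≤ 7 * ε k := by
        refine h2.trans ?_; linarith
      have h5 : w (k + 1) * ε k = (1 / 4) ^ k := by
        simp only [hε]
        rw [mul_div_cancel₀ _ (hw0 _).ne']
      have h6 := mul_le_mul_of_nonneg_left h4 (hw0 (k + 1)).le
      have h7 : (0 : ℝ) < (1 / 4) ^ k := by positivity
      have h8 : 0 ≤ w 0 * (3 * S + 1) := by
        have := hw0 0
        positivity
      rw [hC, pow_succ]
      nlinarith
  have hd1 : ∀ k, ∫ x, |d k x| ∂(sigma n) ≤ C * (1 / 4) ^ k := by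
    intro k
    refine le_trans ?_ (hdw k)
    exact le_mul_of_one_le_left (integral_nonneg fun x => abs_nonneg _) (hw1 k)
  -- the sum
  have hsumI : Summable fun k => ∫ x, |d k x| ∂(sigma n) :=
    Summable.of_nonneg_of_le (fun k => integral_nonneg fun x => abs_nonneg _) hd1
      ((summable_geometric_of_lt_one (by norm_num) (by norm_num)).mul_left C)
  have haen : ∀ᵐ x ∂(sigma n), Summable fun k => ‖d k x‖ := by
    have h1 : ∫⁻ x, ∑' k, ‖d k x‖ₑ ∂(sigma n) ≠ ⊤ := by
      rw [lintegral_tsum fun k => (hdm k).enorm.aemeasurable]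
      have h2 : ∀ k, ∫⁻ x, ‖d k x‖ₑ ∂(sigma n) = ENNReal.ofReal (∫ x, |d k x| ∂(sigma n)) := by
        intro k
        rw [ofReal_integral_eq_lintegral_ofReal (hdi k).abs
          (Eventually.of_forall fun x => abs_nonneg _)]
        refine lintegral_congr fun x => ?_
        rw [← ofReal_norm, Real.norm_eq_abs]
      simp_rw [h2]
      rw [← ENNReal.ofReal_tsum_of_nonneg (fun k => integral_nonneg fun x => abs_nonneg _) hsumI]
      exact ENNReal.ofReal_ne_top
    have h3 := ae_lt_top (Measurable.ennreal_tsum fun k => (hdm k).enorm) h1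
    filter_upwards [h3] with x hx
    have h4 : ∑' k, ((‖d k x‖₊ : ℝ≥0) : ℝ≥0∞) ≠ ⊤ := hx.ne
    have h5 := ENNReal.tsum_coe_ne_top_iff_summable.1 h4
    exact NNReal.summable_coe.2 h5
  have hae : ∀ᵐ x ∂(sigma n), Summable fun k => d k x := by
    filter_upwards [haen] with x hx
    exact Summable.of_norm hx
  set h : sphere (0 : E n) 1 → ℝ := fun x => ∑' k, d k x with hh
  have hlimx : ∀ᵐ x ∂(sigma n), Tendsto (fun K => ∑ k ∈ Finset.range K, d k x) atTop
      (𝓝 (h x)) := by
    filter_upwards [hae] with x hx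
    exact hx.hasSum.tendsto_sum_nat
  have hhm : AEMeasurable h (sigma n) :=
    aemeasurable_of_tendsto_metrizable_ae atTop
      (fun K => (Finset.measurable_fun_sum _ fun k _ => hdm k).aemeasurable) hlimx
  have htK : ∀ K x, t K x = ∑ k ∈ Finset.range K, d k x - g x := by
    intro K x
    induction K with
    | zero => simp [htt, tt]
    | succ K ih =>
      rw [Finset.sum_range_succ]
      change t K x + d K x = _
      rw [ih]; ring
  -- the limit is `g` modulo the integers
  have hint : ∀ᵐ x ∂(sigma n), dz (h x - g x) = 0 := by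
    have h1 : Tendsto (fun K => ∫ x, dz (t K x) ∂(sigma n)) atTop
        (𝓝 (∫ x, dz (h x - g x) ∂(sigma n))) := by
      refine tendsto_integral_of_dominated_convergence (fun _ => (1 / 2 : ℝ))
        (fun K => (dz_meas.comp (htm K)).aestronglyMeasurable) (integrable_const _)
        (fun K => Eventually.of_forall fun x => by
          rw [Real.norm_eq_abs, abs_of_nonneg (dz_nonneg _)]; exact dz_le _) ?_
      filter_upwards [hlimx] with x hx
      have h2 : Tendsto (fun K => t K x) atTop (𝓝 (h x - g x)) := by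
        simp_rw [htK]
        exact hx.sub_const _
      exact (dz_cont.tendsto _).comp h2
    have h2 : Tendsto (fun K : ℕ => ∫ x, dz (t (K + 1) x) ∂(sigma n)) atTop (𝓝 0) := by
      refine squeeze_zero (fun K => integral_nonneg fun x => dz_nonneg _) htz ?_
      exact tendsto_pow_atTop_nhds_zero_of_lt_one (by norm_num) (by norm_num)
    have h3 : ∫ x, dz (h x - g x) ∂(sigma n) = 0 :=
      tendsto_nhds_unique (h1.comp (tendsto_add_atTop_nat 1)) h2
    have h4 : Integrable (fun x => dz (h x - g x)) (sigma n) :=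
      Integrable.of_bound (dz_meas.comp_aemeasurable (hhm.sub hg.aemeasurable)).aestronglyMeasurable
        (1 / 2) (Eventually.of_forall fun x => by
          rw [Real.norm_eq_abs, abs_of_nonneg (dz_nonneg _)]; exact dz_le _)
    have h5 := (integral_eq_zero_iff_of_nonneg (fun x => dz_nonneg _) h4).1 h3
    exact h5
  have hkm : AEMeasurable (fun x => round (h x - g x)) (sigma n) := by
    have h1 : Measurable fun y : ℝ => round y := by
      simp_rw [round_eq]
      exact Int.measurable_floor.comp (by fun_prop)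
    exact h1.comp_aemeasurable (hhm.sub hg.aemeasurable)
  set k : sphere (0 : E n) 1 → ℤ := hkm.mk _ with hk
  have hkeq : ∀ᵐ x ∂(sigma n), g x + k x = h x := by
    filter_upwards [hkm.ae_eq_mk, hint] with x h1 h2
    rw [dz_zero_iff] at h2
    obtain ⟨j, hj⟩ := h2
    have h3 : k x = j := by
      rw [hk, ← h1, hj]; simp
    rw [h3, ← hj]; ring
  have hfteq : ft (fun x => ((g x + k x : ℝ) : ℂ)) = ft (fun x => (h x : ℂ)) := by
    funext ξ
    unfold ft
    refine integral_congr_ae ?_
    filter_upwards [hkeq] with x hx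
    rw [hx]
  -- convergence of the transforms
  have hui : ∀ k, Integrable (fun x => (d k x : ℂ)) (sigma n) := fun k => (hdi k).ofReal
  have hlim : ∀ ξ, Tendsto (fun K => ∑ k ∈ Finset.range K, ft (fun x => (d k x : ℂ)) ξ) atTop
      (𝓝 (ft (fun x => (h x : ℂ)) ξ)) := by
    intro ξ
    have h1 : HasSum (fun k => ft (fun x => (d k x : ℂ)) ξ) (ft (fun x => (h x : ℂ)) ξ) := by
      unfold ft
      have h2 := hasSum_integral_of_summable_integral_norm
        (μ := sigma n) (F := fun k x => Complex.exp (-(2 * Real.pi * ⟪(x : E n), ξ⟫ : ℝ) * I) *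
          (d k x : ℂ)) (fun k => ker_int (hui k) ξ) ?_
      · have h3 : (fun x : sphere (0 : E n) 1 =>
            Complex.exp (-(2 * Real.pi * ⟪(x : E n), ξ⟫ : ℝ) * I) * (h x : ℂ)) =
            fun x : sphere (0 : E n) 1 => ∑' k,
              Complex.exp (-(2 * Real.pi * ⟪(x : E n), ξ⟫ : ℝ) * I) * (d k x : ℂ) := by
          funext x
          simp only [hh]
          rw [tsum_mul_left, Complex.ofReal_tsum]
        rw [h3]
        exact h2
      · refine hsumI.congr fun k => ?_
        refine integral_congr_ae (Eventually.of_forall fun x => ?_)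
        simp only [norm_mul]
        rw [ker_norm, one_mul, Complex.norm_real, Real.norm_eq_abs]
    exact h1.tendsto_sum_nat
  have hcont : ∀ k, Continuous (ft (fun x => (d k x : ℂ))) := fun k => ft_cont (hui k)
  have hfatou : ∀ (r B : ℝ≥0∞) (K0 : ℕ), (∀ K, K0 ≤ K →
      eLpNorm (fun ξ => ∑ k ∈ Finset.range K, ft (fun x => (d k x : ℂ)) ξ) r volume ≤ B) →
      eLpNorm (ft (fun x => (h x : ℂ))) r volume ≤ B := by
    intro r B K0 hB
    have h1 := Lp.eLpNorm_lim_le_liminf_eLpNorm (p := r) (μ := (volume : Measure (E n)))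
      (f := fun K ξ => ∑ k ∈ Finset.range K, ft (fun x => (d k x : ℂ)) ξ)
      (fun K => (continuous_finsetSum _ fun k _ => hcont k).aestronglyMeasurable)
      (ft (fun x => (h x : ℂ)))
      (Eventually.of_forall hlim)
    refine h1.trans ?_
    refine liminf_le_of_frequently_le' ?_
    exact (eventually_atTop.2 ⟨K0, hB⟩).frequently
  have hgeoη : HasSum (fun k : ℕ => η / 2 / 2 ^ k) η := hasSum_geometric_two' _
  have hpart : ∀ (s : Finset ℕ), ∑ k ∈ s, ENNReal.ofReal (η / 2 ^ (k + 1)) ≤
      ENNReal.ofReal η := by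
    intro s
    rw [← ENNReal.ofReal_sum_of_nonneg fun _ _ => by positivity]
    apply ENNReal.ofReal_le_ofReal
    have h1 : ∀ k : ℕ, η / 2 ^ (k + 1) = η / 2 / 2 ^ k := by
      intro k; rw [pow_succ]; field_simp
    rw [Finset.sum_congr rfl fun k _ => h1 k]
    exact sum_le_hasSum s (fun k _ => by positivity) hgeoη
  -- integrability of the limit
  have hmem1 : ∀ q : ℝ, 1 ≤ q → MemLp h (ENNReal.ofReal q) (sigma n) := by
    intro q hq
    have hq0 : 0 < q := by linarith
    have hC0 : 0 ≤ C := by positivity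
    refine ⟨hhm.aestronglyMeasurable, ?_⟩
    set ρ : ℝ := (1 / 4) ^ (1 / q) with hρ
    have hρ1 : ρ < 1 := Real.rpow_lt_one (by norm_num) (by norm_num) (by positivity)
    have hρ0 : 0 ≤ ρ := by positivity
    have hb : ∀ k, eLpNorm (d k) (ENNReal.ofReal q) (sigma n) ≤
        ENNReal.ofReal (4 * C ^ (1 / q) * ρ ^ k) := by
      intro k
      refine (q_norm (d k) (hdm k) (hd4 k) q hq _ (hd1 k)).trans ?_
      apply ENNReal.ofReal_le_ofReal
      rw [Real.mul_rpow hC0 (by positivity), ← Real.rpow_natCast (1 / 4 : ℝ) k,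
        ← Real.rpow_mul (by norm_num), mul_comm ((k : ℕ) : ℝ) (1 / q),
        Real.rpow_mul (by norm_num), Real.rpow_natCast, ← hρ, mul_assoc]
    have hs : Summable fun k => 4 * C ^ (1 / q) * ρ ^ k :=
      (summable_geometric_of_lt_one hρ0 hρ1).mul_left _
    have h1 := Lp.eLpNorm_lim_le_liminf_eLpNorm (p := ENNReal.ofReal q) (μ := sigma n)
      (f := fun K x => ∑ k ∈ Finset.range K, d k x)
      (fun K => (Finset.measurable_fun_sum _ fun k _ => hdm k).aestronglyMeasurable) h hlimx
    refine lt_of_le_of_lt (h1.trans (liminf_le_of_frequently_le'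
      (Frequently.of_forall fun K => ?_))) (ENNReal.ofReal_lt_top
        (r := ∑' k, 4 * C ^ (1 / q) * ρ ^ k))
    have h2 := eLpNorm_sum_le (μ := sigma n) (s := Finset.range K)
      (f := fun k => d k) (fun k _ => (hdm k).aestronglyMeasurable)
      (show 1 ≤ ENNReal.ofReal q by
        rw [← ENNReal.ofReal_one]; exact ENNReal.ofReal_le_ofReal hq)
    have h3 : (∑ k ∈ Finset.range K, d k) = fun x => ∑ k ∈ Finset.range K, d k x := by
      funext x; rw [Finset.sum_apply]
    rw [h3] at h2
    refine h2.trans ((Finset.sum_le_sum fun k _ => hb k).trans ?_)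
    rw [← ENNReal.ofReal_sum_of_nonneg fun k _ => by positivity]
    exact ENNReal.ofReal_le_ofReal (hs.sum_le_tsum _ fun k _ => by positivity)
  have hhi : Integrable h (sigma n) := by
    have := hmem1 1 le_rfl
    rw [ENNReal.ofReal_one] at this
    exact memLp_one_iff_integrable.1 this
  refine ⟨k, hkm.measurable_mk, ?_, ?_, ?_, ?_⟩
  · -- arbitrary integrability
    set Ek : ℕ → Set (sphere (0 : E n) 1) := fun k => {x | (1 / 2 : ℝ) ^ k ≤ |d k x|} with hEk
    have hEm : ∀ k, MeasurableSet (Ek k) := fun k => measurableSet_le measurable_const (hdm k).abs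
    have hEw : ∀ k, ENNReal.ofReal (w k) * sigma n (Ek k) ≤ ENNReal.ofReal (C * (1 / 2) ^ k) := by
      intro k
      have h1 := mul_meas_ge_le_integral_of_nonneg (μ := sigma n)
        (Eventually.of_forall fun x => abs_nonneg (d k x)) (hdi k).abs ((1 / 2 : ℝ) ^ k)
      have h2 : (1 / 2 : ℝ) ^ k * (sigma n).real (Ek k) ≤ ∫ x, |d k x| ∂(sigma n) := h1
      have h3 := mul_le_mul_of_nonneg_left h2 (hw0 k).le
      have h4 := h3.trans (hdw k)
      have h5 : (sigma n) (Ek k) = ENNReal.ofReal ((sigma n).real (Ek k)) := by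
        rw [Measure.real, ENNReal.ofReal_toReal (measure_ne_top _ _)]
      rw [h5, ← ENNReal.ofReal_mul (hw0 k).le]
      apply ENNReal.ofReal_le_ofReal
      have h6 : (1 / 4 : ℝ) ^ k = (1 / 2) ^ k * (1 / 2) ^ k := by
        rw [← mul_pow]; norm_num
      have h7 : (0 : ℝ) < (1 / 2) ^ k := by positivity
      rw [h6] at h4
      have h8 : (1 / 2 : ℝ) ^ k * (w k * (sigma n).real (Ek k)) ≤
          (1 / 2 : ℝ) ^ k * (C * (1 / 2) ^ k) := by linarith
      exact le_of_mul_le_mul_left h8 h7
    have hgeo : ∑' k : ℕ, ENNReal.ofReal (C * (1 / 2) ^ k) < ⊤ := by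
      rw [← ENNReal.ofReal_tsum_of_nonneg (fun k => by positivity)
        ((summable_geometric_of_lt_one (by norm_num) (by norm_num)).mul_left C)]
      exact ENNReal.ofReal_lt_top
    have hEs : ∑' k, sigma n (Ek k) ≠ ⊤ := by
      refine ne_top_of_le_ne_top hgeo.ne (ENNReal.tsum_le_tsum fun k => ?_)
      refine le_trans ?_ (hEw k)
      calc sigma n (Ek k) = 1 * sigma n (Ek k) := (one_mul _).symm
        _ ≤ _ := by
            refine mul_le_mul_left ?_ _
            rw [← ENNReal.ofReal_one]; exact ENNReal.ofReal_le_ofReal (hw1 k)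
    have hfin := ae_finite_setOf_mem hEs
    have hpt : ∀ᵐ x ∂(sigma n), ENNReal.ofReal (Φ |g x + k x|) ≤ ENNReal.ofReal (w 0) +
        ∑' k, (Ek k).indicator (fun _ => ENNReal.ofReal (w k)) x := by
      filter_upwards [hfin, haen, hkeq] with x h1 h2 h3
      rw [h3]
      have hex1 : ∃ L, ∀ k, L ≤ k → x ∉ Ek k := by
        obtain ⟨L, hL⟩ := h1.bddAbove
        refine ⟨L + 1, fun k hk hx => ?_⟩
        have := hL hx
        omega
      classical
      set L := Nat.find hex1 with hLd
      have hL1 : ∀ k, L ≤ k → x ∉ Ek k := Nat.find_spec hex1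
      have hg2 : HasSum (fun k : ℕ => (1 / 2 : ℝ) ^ k) 2 := hasSum_geometric_two
      have hg3 : HasSum (fun k : ℕ => if k ∈ Finset.range L then (4 : ℝ) else 0)
          (∑ k ∈ Finset.range L, if k ∈ Finset.range L then (4 : ℝ) else 0) :=
        hasSum_sum_of_ne_finset_zero fun k hk => by rw [if_neg hk]
      have hg4 : (∑ k ∈ Finset.range L, if k ∈ Finset.range L then (4 : ℝ) else 0) = 4 * L := by
        rw [Finset.sum_congr rfl fun k hk => if_pos hk]
        simp [mul_comm]
      rw [hg4] at hg3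
      have h4 : |h x| ≤ 4 * L + 2 := by
        have h5 : ‖∑' k, d k x‖ ≤ ∑' k, ‖d k x‖ := norm_tsum_le_tsum_norm h2
        have h6 : ∑' k, ‖d k x‖ ≤ 4 * L + 2 := by
          rw [← (hg3.add hg2).tsum_eq]
          refine h2.tsum_le_tsum (fun k => ?_) (hg3.add hg2).summable
          rw [Real.norm_eq_abs]
          have h9 : (0 : ℝ) < (1 / 2) ^ k := by positivity
          by_cases hk : k < L
          · rw [if_pos (Finset.mem_range.2 hk)]
            have := hd4 k x
            linarith
          · rw [if_neg (by simpa using hk), zero_add]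
            have := hL1 k (not_lt.1 hk)
            simp only [hEk, mem_setOf_eq, not_le] at this
            exact this.le
        rw [← Real.norm_eq_abs]
        exact h5.trans h6
      rcases Nat.eq_zero_or_pos L with h0 | h0
      · refine le_trans ?_ (le_self_add)
        apply ENNReal.ofReal_le_ofReal
        refine le_trans (hΦ (h4.trans ?_)) (le_max_left _ _)
        rw [h0]; norm_num
      · obtain ⟨K, hK⟩ : ∃ K, L = K + 1 := ⟨L - 1, by omega⟩
        have h5 : x ∈ Ek K := by
          by_contra hc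
          have h6 : ∀ k, K ≤ k → x ∉ Ek k := by
            intro k hk
            rcases Nat.eq_or_lt_of_le hk with h7 | h7
            · rw [← h7]; exact hc
            · exact hL1 k (by omega)
          have h7 := Nat.find_min' hex1 h6
          omega
        refine le_trans ?_ (le_add_self)
        refine le_trans ?_ (ENNReal.le_tsum K)
        rw [indicator_of_mem h5]
        apply ENNReal.ofReal_le_ofReal
        refine le_trans (hΦ (h4.trans ?_)) (le_max_left _ _)
        rw [hK]; push_cast; linarith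
    refine lt_of_le_of_lt (lintegral_mono_ae hpt) ?_
    rw [lintegral_add_left measurable_const, lintegral_const,
      lintegral_tsum fun k => (measurable_const.indicator (hEm k)).aemeasurable]
    refine ENNReal.add_lt_top.2 ⟨ENNReal.mul_lt_top ENNReal.ofReal_lt_top (measure_lt_top _ _),
      lt_of_le_of_lt (ENNReal.tsum_le_tsum fun k => ?_) hgeo⟩
    rw [lintegral_indicator (hEm k), setLIntegral_const]
    exact hEw k
  · intro q hq
    have h1 := hmem1 (max q.toReal 1) (le_max_right _ _)
    have h2 : q ≤ ENNReal.ofReal (max q.toReal 1) := by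
      rw [← ENNReal.ofReal_toReal hq]
      exact ENNReal.ofReal_le_ofReal (by simp)
    have h3 := h1.mono_exponent h2
    refine (memLp_congr_ae ?_).2 h3
    exact hkeq
  · intro p hp
    rw [hfteq]
    -- a K0 with pk K0 ≤ p
    obtain ⟨K0, hK0⟩ : ∃ K0, ∀ k, K0 ≤ k → pk k ≤ p := by
      obtain ⟨K0, hK0⟩ := exists_pow_lt_of_lt_one (show 0 < (p - pc) / (P - pc) from
        div_pos (by linarith) (by linarith)) (show (1 / 2 : ℝ) < 1 by norm_num)
      refine ⟨K0, fun k hk => ?_⟩
      have h1 : (1 / 2 : ℝ) ^ k ≤ (1 / 2) ^ K0 :=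
        pow_le_pow_of_le_one (by norm_num) (by norm_num) hk
      have h2 : (1 / 2 : ℝ) ^ k < (p - pc) / (P - pc) := lt_of_le_of_lt h1 hK0
      rw [lt_div_iff₀ (by linarith)] at h2
      simp only [hpk]
      rw [one_div, inv_pow, inv_mul_eq_div] at h2
      linarith
    have hr1 : 1 ≤ ENNReal.ofReal p := by
      rw [← ENNReal.ofReal_one]; exact ENNReal.ofReal_le_ofReal (by linarith)
    refine ⟨(ft_cont hhi.ofReal).aestronglyMeasurable, ?_⟩
    set B0 : ℝ≥0∞ := ∑ k ∈ Finset.range K0,
      eLpNorm (ft (fun x => (d k x : ℂ))) (ENNReal.ofReal p) volume with hB0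
    have hB0' : B0 < ⊤ := by
      rw [hB0, ENNReal.sum_lt_top]
      exact fun k _ => ((hdp k).2.2.2.2.1 p hp).2
    refine lt_of_le_of_lt (hfatou (ENNReal.ofReal p) (B0 + ENNReal.ofReal η) K0 fun K hK => ?_)
      (ENNReal.add_lt_top.2 ⟨hB0', ENNReal.ofReal_lt_top⟩)
    have h1 := eLpNorm_sum_le (μ := (volume : Measure (E n))) (s := Finset.range K)
      (f := fun k => ft (fun x => (d k x : ℂ))) (fun k _ => (hcont k).aestronglyMeasurable) hr1
    have h2 : (∑ k ∈ Finset.range K, ft (fun x => (d k x : ℂ))) =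
        fun ξ => ∑ k ∈ Finset.range K, ft (fun x => (d k x : ℂ)) ξ := by
      funext ξ; rw [Finset.sum_apply]
    rw [h2] at h1
    refine h1.trans ?_
    rw [← Finset.sum_range_add_sum_Ico _ hK]
    refine add_le_add le_rfl ?_
    refine le_trans (Finset.sum_le_sum fun k hk' => ?_) (hpart (Finset.Ico K0 K))
    refine (hdp k).2.2.2.2.2 _ (ENNReal.ofReal_le_ofReal ?_)
    exact hK0 k (Finset.mem_Ico.1 hk').1
  · intro r hr
    rw [hfteq]
    have hr1 : 1 ≤ r := by
      refine le_trans ?_ hr
      rw [← ENNReal.ofReal_one]; exact ENNReal.ofReal_le_ofReal (by linarith)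
    refine hfatou r (ENNReal.ofReal η) 0 fun K _ => ?_
    have h1 := eLpNorm_sum_le (μ := (volume : Measure (E n))) (s := Finset.range K)
      (f := fun k => ft (fun x => (d k x : ℂ))) (fun k _ => (hcont k).aestronglyMeasurable) hr1
    have h2 : (∑ k ∈ Finset.range K, ft (fun x => (d k x : ℂ))) =
        fun ξ => ∑ k ∈ Finset.range K, ft (fun x => (d k x : ℂ)) ξ := by
      funext ξ; rw [Finset.sum_apply]
    rw [h2] at h1
    refine h1.trans (le_trans (Finset.sum_le_sum fun k _ => ?_) (hpart (Finset.range K)))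
    refine (hdp k).2.2.2.2.2 r ?_
    refine le_trans (ENNReal.ofReal_le_ofReal ?_) hr
    exact (hpk2 k).trans (min_le_left _ _)

end Pool.Agent.X331.SI
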